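import Pool.Agent.H499R2.LT.B1
import Pool.Agent.H499R2.NDTime

/-! Law of predecessor densities, part E1: error bound of one stage with short words. -/

set_option autoImplicit false

namespace Pool.Agent.H9PD

open Pool.Agent.H320R2.PD Finset Filter Topology
open Pool.Agent.H499R2.ND

theorem pow_tm (k : ℕ) : (2 : ℝ) ^ (41 * k / 20) ≤ Real.exp (1.4212 * k) := by
  have h := pow_tm_le (t := 2 * k) (by positivity) (k := k) (by linarith)
  refine h.trans (le_of_eq ?_)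
  congr 1
  ring

theorem err_eta (B : ℕ) (d : ℤ) {η : ℝ} (hη : 0 < η) (hη1 : η ≤ 1 / 10) :
    ∃ C t₀ : ℝ, 0 < C ∧ 8 ≤ t₀ ∧ ∀ A : ℝ, 0 < A → t₀ ≤ Real.log A → ∀ k m m' : ℕ, m ≤ 1 →
      k = ⌊η * Real.log A / 4⌋₊ → m' = ⌊Real.sqrt k⌋₊ →
      1 ≤ k ∧ m' ≤ k ∧ Err d A k m m' ≤ C / (Real.log A) ^ B := by
  obtain ⟨Cm, hCm, hmix⟩ := mix (2 * B + 2)
  set C1 : ℝ := 4 * (2 * Cm * (2 ^ (2 * B + 2) + 1) * (8 / η) ^ B) with hC1
  set C2 : ℝ := 3 * (B.factorial * (102400 / η) ^ B) with hC2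
  set C3 : ℝ := (|(d : ℝ)| + 3) * (6 * (B.factorial * 2 ^ B)) with hC3
  refine ⟨C1 + C2 + C3, 32 / η + 8, by positivity, by
    have : 0 < 32 / η := by positivity
    linarith, ?_⟩
  intro A hA ht k m m' hm hk hm'
  set t := Real.log A with htdef
  have h32 : 0 < 32 / η := by positivity
  have ht8 : 8 ≤ t := by linarith
  have htpos : 0 < t := by linarith
  have hηt : 32 ≤ η * t := by
    have : 32 / η ≤ t := by linarith
    rw [div_le_iff₀ hη] at this
    linarith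
  have hexpA : Real.exp t = A := Real.exp_log hA
  have hk1 : (k : ℝ) ≤ η * t / 4 := by rw [hk]; exact Nat.floor_le (by positivity)
  have hk2 : η * t / 8 ≤ k := by
    have : η * t / 4 - 1 ≤ k := by rw [hk]; linarith [Nat.lt_floor_add_one (η * t / 4)]
    linarith
  have hk4 : (4 : ℝ) ≤ k := by linarith
  have hk4N : 4 ≤ k := by exact_mod_cast hk4
  have hkpos : (0 : ℝ) < k := by linarith
  set r := Real.sqrt k with hr
  have hrsq : r ^ 2 = k := Real.sq_sqrt hkpos.le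
  have hr2 : 2 ≤ r := Real.le_sqrt_of_sq_le (by linarith)
  have hm'2 : (m' : ℝ) ≤ r := by rw [hm']; exact Nat.floor_le (Real.sqrt_nonneg _)
  have hm'1 : r / 2 ≤ m' := by
    have := Nat.lt_floor_add_one r
    rw [← hm'] at this
    linarith
  have hm'pos : 1 ≤ m' := by
    have : (1 : ℝ) ≤ m' := by linarith
    exact_mod_cast this
  have hm'k : m' ≤ k := by
    have : (m' : ℝ) ≤ k := by nlinarith
    exact_mod_cast this
  refine ⟨by omega, hm'k, ?_⟩
  -- exponentially small quantities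
  have h3m : (3 : ℝ) ^ m ≤ 3 := by
    calc (3 : ℝ) ^ m ≤ 3 ^ 1 := pow_le_pow_right₀ (by norm_num) hm
      _ = 3 := by norm_num
  have htm : (2 : ℝ) ^ (41 * k / 20) ≤ Real.exp (t / 4) := by
    refine (pow_tm k).trans (Real.exp_le_exp.2 ?_)
    nlinarith
  have hsmall : (2 : ℝ) ^ (41 * k / 20) * (2 * 3 ^ m / A) ≤ 6 * Real.exp (-(t / 2)) := by
    have h3 : (2 : ℝ) ^ (41 * k / 20) * (2 * 3 ^ m / A) ≤ Real.exp (t / 4) * (6 / Real.exp t) := by
      rw [← hexpA]
      apply mul_le_mul htm _ (by positivity) (Real.exp_pos _).le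
      apply div_le_div_of_nonneg_right _ (Real.exp_pos _).le
      linarith
    have h4 : Real.exp (t / 4) * (6 / Real.exp t) = 6 * Real.exp (t / 4 - t) := by
      rw [Real.exp_sub]; ring
    rw [h4] at h3
    refine h3.trans ?_
    apply mul_le_mul_of_nonneg_left _ (by norm_num)
    apply Real.exp_le_exp.2
    linarith
  have hexpsmall : 6 * Real.exp (-(t / 2)) ≤ 3 := by
    have h1 := Real.add_one_le_exp (t / 2)
    have h2 : Real.exp (-(t / 2)) ≤ 1 / 5 := by
      rw [Real.exp_neg, inv_eq_one_div]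
      apply one_div_le_one_div_of_le (by norm_num)
      linarith
    linarith
  have h3mA : 0 ≤ (2 * 3 ^ m / A : ℝ) := by positivity
  have hone : (2 * 3 ^ m / A : ℝ) ≤ 6 * Real.exp (-(t / 2)) := by
    have : (1 : ℝ) ≤ 2 ^ (41 * k / 20) := one_le_pow₀ (by norm_num)
    nlinarith
  -- mixing
  have hδ := hmix k m m' (3 * k) (by omega) hm'pos hm'k (le_refl _)
  set δ := ∑ T ∈ range (k * (3 * k) + 1), dev (FWT (3 * k) k T) wwt (fun w => (Wo w : ℤ)) (k + m) m'
    with hδdef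
  have hδnn : 0 ≤ δ := sum_nonneg fun _ _ => sum_nonneg fun _ _ => abs_nonneg _
  have hrpos : 0 < r := by linarith
  have hmR : (m : ℝ) ≤ 1 := by exact_mod_cast hm
  have hm0 : (0 : ℝ) ≤ m := Nat.cast_nonneg m
  have hδ2 : δ ≤ 2 * Cm * (2 ^ (2 * B + 2) + 1) * (8 / η) ^ B / t ^ B := by
    have e1 : ((k : ℝ) + m) ≤ 2 * k := by linarith
    have e2 : (1 / (m' : ℝ)) ^ (2 * B + 2) ≤ (2 / r) ^ (2 * B + 2) := by
      apply pow_le_pow_left₀ (by positivity)
      rw [div_le_div_iff₀ (by exact_mod_cast hm'pos) hrpos]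
      linarith
    have e3 : ((m : ℝ) / k) ^ (2 * B + 2) ≤ (1 / r) ^ (2 * B + 2) := by
      apply pow_le_pow_left₀ (by positivity)
      rw [div_le_div_iff₀ hkpos hrpos]
      nlinarith
    have e4 : 2 * (k : ℝ) * (Cm * ((2 / r) ^ (2 * B + 2) + (1 / r) ^ (2 * B + 2)))
        = (2 * Cm * (2 ^ (2 * B + 2) + 1)) / k ^ B := by
      have : r ^ (2 * B + 2) = k * k ^ B := by
        rw [show 2 * B + 2 = 2 * (B + 1) by ring, pow_mul, hrsq, pow_succ]; ring
      rw [div_pow, div_pow, this, one_pow]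
      field_simp
    calc δ ≤ (k + m) * (Cm * ((1 / (m' : ℝ)) ^ (2 * B + 2) + ((m : ℝ) / k) ^ (2 * B + 2))) := hδ
      _ ≤ 2 * k * (Cm * ((2 / r) ^ (2 * B + 2) + (1 / r) ^ (2 * B + 2))) := by
          apply mul_le_mul e1 _ (by positivity) (by positivity)
          apply mul_le_mul_of_nonneg_left _ hCm.le
          linarith
      _ = (2 * Cm * (2 ^ (2 * B + 2) + 1)) / k ^ B := e4
      _ ≤ (2 * Cm * (2 ^ (2 * B + 2) + 1)) / (η * t / 8) ^ B := by
          apply div_le_div_of_nonneg_left (by positivity) (by positivity)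
          exact pow_le_pow_left₀ (by positivity) hk2 B
      _ = _ := by
          have : (η * t / 8) ^ B = t ^ B / (8 / η) ^ B := by
            rw [← div_pow]; congr 1; field_simp
          rw [this]
          field_simp
  -- mass
  have hmass := mass_GW k
  have hmass2 : 3 * Real.exp (-(k / 12800 : ℝ)) ≤ C2 / t ^ B := by
    have h1 : Real.exp (-(k / 12800 : ℝ)) ≤ Real.exp (-(t / (102400 / η))) := by
      apply Real.exp_le_exp.2
      rw [div_div_eq_mul_div]
      linarith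
    have h2 := exp_neg_le B (by positivity : (0 : ℝ) < 102400 / η) htpos
    have h3 : C2 / t ^ B = 3 * ((B.factorial * (102400 / η) ^ B) / t ^ B) := by rw [hC2]; ring
    rw [h3]
    linarith
  have hexp2 := exp_neg_le B (by norm_num : (0 : ℝ) < 2) htpos
  unfold Err
  rw [← hδdef]
  have hd0 : 0 ≤ |(d : ℝ)| := abs_nonneg _
  have f1 : (1 + 2 ^ (41 * k / 20) * (2 * 3 ^ m / A)) * δ ≤ 4 * δ :=
    mul_le_mul_of_nonneg_right (by linarith) hδnn
  have f2 : (1 + (|(d : ℝ)| + 2) * 2 ^ (41 * k / 20)) * (2 * 3 ^ m / A)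
      ≤ (|(d : ℝ)| + 3) * (6 * Real.exp (-(t / 2))) := by
    calc (1 + (|(d : ℝ)| + 2) * 2 ^ (41 * k / 20)) * (2 * 3 ^ m / A)
        = (2 * 3 ^ m / A) + (|(d : ℝ)| + 2) * (2 ^ (41 * k / 20) * (2 * 3 ^ m / A)) := by ring
      _ ≤ 6 * Real.exp (-(t / 2)) + (|(d : ℝ)| + 2) * (6 * Real.exp (-(t / 2))) := by
          have := mul_le_mul_of_nonneg_left hsmall (by linarith : 0 ≤ |(d : ℝ)| + 2)
          linarith
      _ = _ := by ring
  have f3 : (|(d : ℝ)| + 3) * (6 * Real.exp (-(t / 2))) ≤ C3 / t ^ B := by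
    have : C3 / t ^ B = (|(d : ℝ)| + 3) * (6 * ((B.factorial * 2 ^ B) / t ^ B)) := by rw [hC3]; ring
    rw [this]
    apply mul_le_mul_of_nonneg_left _ (by linarith)
    linarith
  have f4 : 4 * δ ≤ C1 / t ^ B := by
    have : C1 / t ^ B = 4 * (2 * Cm * (2 ^ (2 * B + 2) + 1) * (8 / η) ^ B / t ^ B) := by rw [hC1]; ring
    rw [this]
    linarith
  have f5 : (C1 + C2 + C3) / t ^ B = C1 / t ^ B + C2 / t ^ B + C3 / t ^ B := by ring
  rw [f5]
  linarith

end Pool.Agent.H9PD
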