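import Pool.Agent.H9PD.E6
import Pool.Agent.H319R2.GTk

/-! Law of predecessor densities, part E10: good integers, from the laws of descent, of the first steps,
and of thin sets. -/

set_option autoImplicit false

namespace Pool.Agent.H9PD

open Finset Filter Topology
open Pool.Agent.H499R2.ND (Td exp_neg_le)

/-- from `x` the trajectory reaches a value `≤ y` within `B log x` steps, and stays `≤ V` until then -/
def DescZ (d : ℤ) (B y V : ℝ) (x : ℤ) : Prop :=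
  ∃ m : ℕ, (m : ℝ) ≤ B * Real.log x ∧ (((Td d)^[m] x : ℤ) : ℝ) ≤ y ∧ ∀ j ≤ m, (((Td d)^[j] x : ℤ) : ℝ) ≤ V

open Classical in
/-- descent and excursions -/
def In1 (d : ℤ) : Prop := ∃ B C β : ℝ, ∃ D : ℕ, 0 < B ∧ 0 < C ∧ 0 < β ∧ β ≤ 1 ∧ ∀ x y V : ℝ,
  2 ≤ x → 1 ≤ y → x ≤ V → (((Icc (1 : ℤ) ⌊x⌋).filter fun n => ¬ DescZ d B y V n).card : ℝ)
    ≤ C * Real.log x ^ D * (x ^ 2 / V + x / y ^ β)

open Classical in
/-- the first steps -/
def In2 (d : ℤ) : Prop := ∀ c : ℝ, 0 < c → c ≤ 1 / 10 → ∃ C c₁ y₀ : ℝ, 0 < C ∧ 0 < c₁ ∧ ∀ y : ℝ, y₀ ≤ y →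
  ∀ N : ℕ, (N : ℝ) ≤ y ^ (1 + c / 40) →
    (((Icc 1 N).filter fun n : ℕ => y ^ (1 - c / 40) < (((Td d)^[⌈c * Real.log y⌉₊] (n : ℤ) : ℤ) : ℝ)).card : ℝ)
      ≤ C * N * y ^ (-c₁)

open Classical in
/-- thin sets -/
def In3 (d : ℤ) : Prop := ∀ B : ℕ, ∃ l₀ K : ℝ, 0 < K ∧ ∀ Y : ℝ, 0 < Y → l₀ ≤ Real.log Y → ∀ A : Set ℤ,
  (∀ X : ℝ, Y ≤ X → (((Icc ⌈Y⌉ ⌊X⌋).filter fun x => x ∈ A).card : ℝ)
    ≤ X * Real.exp (-(Real.log X) ^ (1 / 2 : ℝ))) →
  ∀ N : ℕ, (((Icc (1 : ℤ) N).filter fun n => ∃ k : ℕ, (Td d)^[k] n ∈ A ∧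
    ∀ j ≤ k, Y ≤ (((Td d)^[j] n : ℤ) : ℝ)).card : ℝ) ≤ K * N / (Real.log Y) ^ B

open Classical in
/-- one trajectory has few terms `≤ R` -/
theorem orbit_few {d : ℤ} (hd : d = 1 ∨ d = -1) : ∃ A : ℝ, 0 < A ∧ ∀ (p : ℤ) (R : ℝ), 1 ≤ R → ∀ E : Finset ℤ,
    (∀ x ∈ E, |(x : ℝ)| ≤ R) → ((E.filter fun x => ∃ j : ℕ, (Td d)^[j] p = x).card : ℝ) ≤ A * R ^ (0.951 : ℝ) := by
  obtain ⟨A, hA, hsp⟩ := Pool.Agent.H319R2.Tk.sparse 0.951 Pool.Agent.H319R2.beta_lt (by norm_num)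
  refine ⟨A, hA, ?_⟩
  intro p R hR E hE
  have hd1 : |(d : ℝ)| = 1 := by rcases hd with rfl | rfl <;> simp
  have hd2 : d % 2 = 1 := by rcases hd with rfl | rfl <;> decide
  set Ea := E.filter fun x => ∃ j : ℕ, (Td d)^[j] p = x with hEa
  obtain ⟨r, hinj, hr⟩ := Pool.Agent.H319R2.G.finite_subset_path (Td d) p Ea (by
    intro y hy
    rw [hEa, mem_filter] at hy
    exact hy.2)
  have h1 := hsp d hd2 _ (Pool.Agent.H319R2.G.tame_path (Td d) p r hinj) R hR Ea (by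
    intro y hy
    obtain ⟨i, hi, he⟩ := hr y hy
    rw [hEa, mem_filter] at hy
    exact ⟨⟨i, hi, he⟩, hE y hy.1⟩)
  rw [hd1, Real.one_rpow, mul_one] at h1
  exact h1

/-- polynomials times exponentially small -/
theorem ev_small {a : ℝ} (ha : 0 < a) (C : ℝ) (D : ℕ) : ∀ᶠ l : ℝ in atTop,
    C * l ^ D * Real.exp (-(a * l)) ≤ Real.exp (-(l ^ (1 / 2 : ℝ))) := by
  have h1 : Tendsto (fun l : ℝ => (a / 2 * l) ^ D * Real.exp (-(a / 2 * l))) atTop (𝓝 0) :=
    (Real.tendsto_pow_mul_exp_neg_atTop_nhds_zero D).comp (tendsto_id.const_mul_atTop (by positivity))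
  have h2 : ∀ᶠ l : ℝ in atTop, (a / 2 * l) ^ D * Real.exp (-(a / 2 * l)) ≤ (a / 2) ^ D / (|C| + 1) :=
    h1.eventually_le_const (by positivity)
  filter_upwards [h2, eventually_ge_atTop (4 / a ^ 2), eventually_ge_atTop (1 : ℝ)] with l h3 h4 h5
  have hl0 : 0 < l := by linarith
  have hroot : l ^ (1 / 2 : ℝ) ≤ a / 2 * l := by
    rw [← Real.sqrt_eq_rpow, Real.sqrt_le_left (by positivity)]
    rw [div_le_iff₀ (by positivity)] at h4
    nlinarith
  have e1 : Real.exp (-(a * l)) = Real.exp (-(a / 2 * l)) * Real.exp (-(a / 2 * l)) := by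
    rw [← Real.exp_add]; congr 1; ring
  have h6 : C * l ^ D * Real.exp (-(a / 2 * l)) ≤ 1 := by
    rw [mul_pow] at h3
    have h7 : (a / 2) ^ D * (l ^ D * Real.exp (-(a / 2 * l))) ≤ (a / 2) ^ D * (1 / (|C| + 1)) := by
      calc (a / 2) ^ D * (l ^ D * Real.exp (-(a / 2 * l))) = (a / 2) ^ D * l ^ D * Real.exp (-(a / 2 * l)) := by ring
        _ ≤ (a / 2) ^ D / (|C| + 1) := h3
        _ = _ := by ring
    have h8 := le_of_mul_le_mul_left h7 (by positivity)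
    have h9 : 0 ≤ l ^ D * Real.exp (-(a / 2 * l)) := by positivity
    have h10 : C ≤ |C| := le_abs_self C
    have h11 : 0 ≤ |C| := abs_nonneg C
    calc C * l ^ D * Real.exp (-(a / 2 * l)) = C * (l ^ D * Real.exp (-(a / 2 * l))) := by ring
      _ ≤ (|C| + 1) * (l ^ D * Real.exp (-(a / 2 * l))) := mul_le_mul_of_nonneg_right (by linarith) h9
      _ ≤ (|C| + 1) * (1 / (|C| + 1)) := mul_le_mul_of_nonneg_left h8 (by positivity)
      _ = 1 := by field_simp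
  calc C * l ^ D * Real.exp (-(a * l)) = (C * l ^ D * Real.exp (-(a / 2 * l))) * Real.exp (-(a / 2 * l)) := by
        rw [e1]; ring
    _ ≤ 1 * Real.exp (-(a / 2 * l)) := mul_le_mul_of_nonneg_right h6 (Real.exp_pos _).le
    _ ≤ Real.exp (-(l ^ (1 / 2 : ℝ))) := by
        rw [one_mul]
        apply Real.exp_le_exp.2
        linarith

/-- `X exp (- √log X)` increases -/
theorem thin_mono {X X' : ℝ} (h1 : 1 ≤ Real.log X') (hX' : 0 < X') (h : X' ≤ X) :
    X' * Real.exp (-(Real.log X') ^ (1 / 2 : ℝ)) ≤ X * Real.exp (-(Real.log X) ^ (1 / 2 : ℝ)) := by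
  have hX : 0 < X := by linarith
  have hl : Real.log X' ≤ Real.log X := Real.log_le_log hX' h
  have e : ∀ Z : ℝ, 0 < Z → Z * Real.exp (-(Real.log Z) ^ (1 / 2 : ℝ))
      = Real.exp (Real.log Z - √(Real.log Z)) := by
    intro Z hZ
    rw [← Real.sqrt_eq_rpow, sub_eq_add_neg, Real.exp_add, Real.exp_log hZ]
  rw [e X' hX', e X hX]
  apply Real.exp_le_exp.2
  set s := √(Real.log X') with hs
  set t := √(Real.log X) with ht
  have hs2 : s ^ 2 = Real.log X' := Real.sq_sqrt (by linarith)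
  have ht2 : t ^ 2 = Real.log X := Real.sq_sqrt (by linarith)
  have hs1 : 1 ≤ s := by rw [hs]; exact Real.one_le_sqrt.2 h1
  have hst : s ≤ t := Real.sqrt_le_sqrt hl
  rw [← hs2, ← ht2]
  nlinarith

open Classical in
theorem W1_of {d : ℤ} (hd : d = 1 ∨ d = -1) {B C β : ℝ} {D : ℕ} (hB : 0 < B) (hC : 0 < C) (hβ : 0 < β)
    (hβ1 : β ≤ 1) (h : ∀ x y V : ℝ, 2 ≤ x → 1 ≤ y → x ≤ V →
      (((Icc (1 : ℤ) ⌊x⌋).filter fun n => ¬ DescZ d B y V n).card : ℝ)
        ≤ C * Real.log x ^ D * (x ^ 2 / V + x / y ^ β)) :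
    ∃ c₀ y₀ : ℝ, 0 < c₀ ∧ ∀ y : ℝ, y₀ ≤ y →
      (((WF y).filter fun x => ¬ GoodZ d (2 * B) y x).card : ℝ) ≤ y ^ (1 - c₀) := by
  obtain ⟨A, hA, horb⟩ := orbit_few hd
  -- choice of the exponent
  have hev1 := ev_small (by positivity : 0 < β / 200) (6 * C * 2 ^ D) D
  have hev2 := ev_small (by norm_num : (0 : ℝ) < 1 / 100) (4 * A) 0
  have hev3 := ev_small (by positivity : 0 < β / 200) (6 * C * 2 ^ D) D
  obtain ⟨l₀, hl₀⟩ := eventually_atTop.1 (hev1.and (hev2.and (eventually_ge_atTop (100 : ℝ))))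
  refine ⟨β / 200, Real.exp l₀, by positivity, fun y hy => ?_⟩
  have hypos : 0 < y := (Real.exp_pos _).trans_le hy
  have hll : l₀ ≤ Real.log y := by rwa [Real.le_log_iff_exp_le hypos]
  obtain ⟨e1, e2, e3⟩ := hl₀ _ hll
  set l := Real.log y with hl
  have hl0 : 0 < l := by linarith
  have hyexp : y = Real.exp l := (Real.exp_log hypos).symm
  have hy2 : 2 ≤ y := by
    rw [hyexp]
    have := Real.add_one_le_exp l
    linarith
  have hle1 : ∀ z : ℝ, z ≤ Real.exp (-(l ^ (1 / 2 : ℝ))) → z ≤ 1 := by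
    intro z hz
    refine hz.trans ?_
    rw [Real.exp_le_one_iff]
    have : 0 ≤ l ^ (1 / 2 : ℝ) := Real.rpow_nonneg hl0.le _
    linarith
  set Y : ℝ := y ^ (1 / 100 : ℝ) with hY
  have hYexp : Y = Real.exp (l / 100) := by
    rw [hY, Real.rpow_def_of_pos hypos]; congr 1; ring
  have hY1 : 1 ≤ Y := by rw [hYexp]; exact Real.one_le_exp (by positivity)
  have hYpos : 0 < Y := by linarith
  -- decomposition
  have hsub : (WF y).filter (fun x => ¬ GoodZ d (2 * B) y x) ⊆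
      ((Icc (1 : ℤ) ⌊2 * y⌋).filter fun n => ¬ DescZ d B Y ((2 * y) ^ 2) n) ∪
      (Icc (1 : ℤ) ⌊Y⌋).biUnion fun p => (WF y).filter fun x => ∃ j : ℕ, (Td d)^[j] p = x := by
    intro x hx
    rw [mem_filter, mem_WF] at hx
    obtain ⟨⟨h1, h2⟩, h3⟩ := hx
    rw [mem_union, mem_filter, mem_biUnion, mem_Icc, Int.le_floor]
    by_cases h4 : DescZ d B Y ((2 * y) ^ 2) x
    · right
      unfold GoodZ at h3
      push Not at h3
      obtain ⟨m, hm1, hm2, _⟩ := h4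
      have hx0 : (0 : ℝ) < x := by linarith
      obtain ⟨p, hp1, hp2, j, hj⟩ := h3 h1 h2 ⟨m, by
        refine hm1.trans ?_
        have h5 : Real.log x ≤ 2 * l := by
          have h6 : Real.log x ≤ Real.log (2 * y) := Real.log_le_log hx0 h2
          rw [Real.log_mul (by norm_num) hypos.ne'] at h6
          have := Real.log_two_lt_d9
          linarith
        calc B * Real.log x ≤ B * (2 * l) := mul_le_mul_of_nonneg_left h5 hB.le
          _ = _ := by ring, hm2⟩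
      refine ⟨p, ?_, ?_⟩
      · rw [mem_Icc, Int.le_floor]; exact ⟨hp1, hp2⟩
      · rw [mem_filter, mem_WF]; exact ⟨⟨h1, h2⟩, j, hj⟩
    · left
      refine ⟨⟨?_, by push_cast; exact h2⟩, h4⟩
      have : (0 : ℝ) < x := by linarith
      have : (0 : ℤ) < x := by exact_mod_cast this
      omega
  have hcard := (card_le_card hsub).trans (card_union_le _ _)
  have hA1 := h (2 * y) Y ((2 * y) ^ 2) (by linarith) hY1 (by nlinarith)
  have hlog2 : Real.log (2 * y) ≤ 2 * l := by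
    rw [Real.log_mul (by norm_num) hypos.ne']
    have := Real.log_two_lt_d9
    linarith
  have hlog0 : 0 ≤ Real.log (2 * y) := Real.log_nonneg (by linarith)
  have hYβ : Y ^ β = Real.exp (β * l / 100) := by
    rw [hYexp, ← Real.exp_mul]; congr 1; ring
  -- first part
  have hfirst : (((Icc (1 : ℤ) ⌊2 * y⌋).filter fun n => ¬ DescZ d B Y ((2 * y) ^ 2) n).card : ℝ)
      ≤ 1 / 2 * y ^ (1 - β / 200) := by
    refine hA1.trans ?_
    have e4 : (2 * y) ^ 2 / (2 * y) ^ 2 = 1 := div_self (by positivity)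
    rw [e4, hYβ]
    have e5 : y ^ (1 - β / 200) = y * Real.exp (-(β / 200 * l)) := by
      rw [Real.rpow_def_of_pos hypos, ← hl, hyexp, ← Real.exp_add]
      congr 1; ring
    rw [e5]
    have e6 : 2 * y / Real.exp (β * l / 100) = 2 * y * Real.exp (-(β / 200 * l)) * Real.exp (-(β / 200 * l)) := by
      rw [mul_assoc, ← Real.exp_add, div_eq_mul_inv, ← Real.exp_neg]
      congr 2; ring
    rw [e6]
    have e7 : C * Real.log (2 * y) ^ D ≤ C * (2 ^ D * l ^ D) := by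
      rw [← mul_pow]
      exact mul_le_mul_of_nonneg_left (pow_le_pow_left₀ hlog0 hlog2 D) hC.le
    set E := Real.exp (-(β / 200 * l)) with hE
    have hEpos : 0 < E := Real.exp_pos _
    have e8 : 1 ≤ y * E * E := by
      rw [hE, mul_assoc, ← Real.exp_add, hyexp, ← Real.exp_add]
      apply Real.one_le_exp
      nlinarith
    have e9 : 6 * C * 2 ^ D * l ^ D * E ≤ 1 := hle1 _ e1
    have e10 : C * (2 ^ D * l ^ D) * E ≤ 1 / 6 := by linarith
    calc C * Real.log (2 * y) ^ D * (1 + 2 * y * E * E)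
        ≤ C * (2 ^ D * l ^ D) * (1 + 2 * y * E * E) := mul_le_mul_of_nonneg_right e7 (by positivity)
      _ ≤ C * (2 ^ D * l ^ D) * (3 * (y * E * E)) := by
          apply mul_le_mul_of_nonneg_left _ (by positivity)
          linarith
      _ = 3 * (C * (2 ^ D * l ^ D) * E) * (y * E) := by ring
      _ ≤ 3 * (1 / 6) * (y * E) := by
          apply mul_le_mul_of_nonneg_right _ (by positivity)
          linarith
      _ = 1 / 2 * (y * E) := by ring
  -- second part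
  have hsecond : ((((Icc (1 : ℤ) ⌊Y⌋).biUnion fun p => (WF y).filter fun x => ∃ j : ℕ, (Td d)^[j] p = x).card : ℕ) : ℝ)
      ≤ 1 / 2 * y ^ (1 - β / 200) := by
    have h1 : ((((Icc (1 : ℤ) ⌊Y⌋).biUnion fun p => (WF y).filter fun x => ∃ j : ℕ, (Td d)^[j] p = x).card : ℕ) : ℝ)
        ≤ ∑ p ∈ Icc (1 : ℤ) ⌊Y⌋, A * (2 * y) ^ (0.951 : ℝ) := by
      have h2 : ((((Icc (1 : ℤ) ⌊Y⌋).biUnion fun p => (WF y).filter fun x => ∃ j : ℕ, (Td d)^[j] p = x).card : ℕ) : ℝ)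
          ≤ ∑ p ∈ Icc (1 : ℤ) ⌊Y⌋, ((((WF y).filter fun x => ∃ j : ℕ, (Td d)^[j] p = x).card : ℕ) : ℝ) := by
        exact_mod_cast card_biUnion_le
      refine h2.trans (sum_le_sum fun p _ => ?_)
      apply horb p (2 * y) (by linarith)
      intro x hx
      rw [mem_WF] at hx
      rw [abs_of_pos (by linarith)]
      exact hx.2
    refine h1.trans ?_
    rw [sum_const, nsmul_eq_mul]
    have h3 : (((Icc (1 : ℤ) ⌊Y⌋).card : ℕ) : ℝ) ≤ Y := by
      rw [Int.card_Icc]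
      have h4 : (0 : ℤ) ≤ ⌊Y⌋ := Int.floor_nonneg.2 hYpos.le
      have h5 : (((⌊Y⌋ + 1 - 1).toNat : ℕ) : ℝ) = (⌊Y⌋ : ℝ) := by
        have h6 : (((⌊Y⌋ + 1 - 1).toNat : ℕ) : ℤ) = ⌊Y⌋ := by omega
        exact_mod_cast congrArg (fun z : ℤ => (z : ℝ)) h6
      rw [h5]
      exact Int.floor_le Y
    have h6 : (2 * y) ^ (0.951 : ℝ) ≤ 2 * Real.exp (0.951 * l) := by
      rw [Real.mul_rpow (by norm_num) hypos.le]
      have h7 : (2 : ℝ) ^ (0.951 : ℝ) ≤ 2 := by
        calc (2 : ℝ) ^ (0.951 : ℝ) ≤ 2 ^ (1 : ℝ) :=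
              Real.rpow_le_rpow_of_exponent_le (by norm_num) (by norm_num)
          _ = 2 := Real.rpow_one 2
      have h8 : y ^ (0.951 : ℝ) = Real.exp (0.951 * l) := by
        rw [Real.rpow_def_of_pos hypos, mul_comm]
      rw [h8]
      exact mul_le_mul_of_nonneg_right h7 (Real.exp_pos _).le
    have h7 : y ^ (1 - β / 200) = Real.exp ((1 - β / 200) * l) := by
      rw [Real.rpow_def_of_pos hypos, mul_comm]
    rw [h7]
    have h8 : 4 * A * Real.exp (-(1 / 100 * l)) ≤ 1 := by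
      have := hle1 _ e2
      simpa using this
    calc (((Icc (1 : ℤ) ⌊Y⌋).card : ℕ) : ℝ) * (A * (2 * y) ^ (0.951 : ℝ))
        ≤ Y * (A * (2 * Real.exp (0.951 * l))) := by
          apply mul_le_mul h3 _ (by positivity) hYpos.le
          exact mul_le_mul_of_nonneg_left h6 hA.le
      _ = 2 * A * Real.exp (0.961 * l) := by
          rw [hYexp]
          have : Real.exp (0.961 * l) = Real.exp (l / 100) * Real.exp (0.951 * l) := by
            rw [← Real.exp_add]; congr 1; ring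
          rw [this]; ring
      _ = 1 / 2 * (4 * A * Real.exp (-(1 / 100 * l))) * Real.exp (0.971 * l) := by
          have : Real.exp (0.961 * l) = Real.exp (-(1 / 100 * l)) * Real.exp (0.971 * l) := by
            rw [← Real.exp_add]; congr 1; ring
          rw [this]; ring
      _ ≤ 1 / 2 * 1 * Real.exp (0.971 * l) := by
          apply mul_le_mul_of_nonneg_right _ (Real.exp_pos _).le
          linarith
      _ ≤ 1 / 2 * Real.exp ((1 - β / 200) * l) := by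
          rw [mul_one]
          apply mul_le_mul_of_nonneg_left _ (by norm_num)
          apply Real.exp_le_exp.2
          nlinarith
  have hcard' : (((WF y).filter fun x => ¬ GoodZ d (2 * B) y x).card : ℝ)
      ≤ (((Icc (1 : ℤ) ⌊2 * y⌋).filter fun n => ¬ DescZ d B Y ((2 * y) ^ 2) n).card : ℝ)
        + ((((Icc (1 : ℤ) ⌊Y⌋).biUnion fun p => (WF y).filter fun x => ∃ j : ℕ, (Td d)^[j] p = x).card : ℕ) : ℝ) := by
    exact_mod_cast hcard
  linarith

end Pool.Agent.H9PD
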