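import Pool.Agent.H9PD.E10

/-! Law of predecessor densities, part E11: few integers meet a good integer after many steps. -/

set_option autoImplicit false

namespace Pool.Agent.H9PD

open Finset Filter Topology
open Pool.Agent.H499R2.ND (Td exp_neg_le)

open Classical in
theorem W2_of {d : ℤ} (hd : d = 1 ∨ d = -1) {B₁ C₁ β : ℝ} {D : ℕ} (hB : 0 < B₁) (hC : 0 < C₁) (hβ : 0 < β)
    (hβ1 : β ≤ 1) (h : ∀ x y V : ℝ, 2 ≤ x → 1 ≤ y → x ≤ V →
      (((Icc (1 : ℤ) ⌊x⌋).filter fun n => ¬ DescZ d B₁ y V n).card : ℝ)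
        ≤ C₁ * Real.log x ^ D * (x ^ 2 / V + x / y ^ β)) (h2 : In2 d) (h3 : In3 d) :
    ∀ c : ℝ, 0 < c → c ≤ 1 / 10 → ∀ B : ℕ, ∃ K y₀ : ℝ, 0 < K ∧ ∀ y : ℝ, y₀ ≤ y → ∀ N : ℕ,
      (N : ℝ) ≤ y ^ (1 + c / 40) →
      (((Icc 1 N).filter fun n : ℕ => ∃ j : ℕ, c * Real.log y ≤ j ∧
        GoodZ d (2 * B₁) y ((Td d)^[j] n)).card : ℝ) ≤ K * N / Real.log y ^ B := by
  intro c hc hc1 B
  obtain ⟨C₂, c₁, y₂, hC₂, hc₁, hfirst⟩ := h2 c hc hc1
  obtain ⟨lt, K₃, hK₃, hthin⟩ := h3 B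
  set a : ℝ := min (c / 40) (β / 100) with ha
  have ha0 : 0 < a := lt_min (by positivity) (by positivity)
  have hac : a ≤ c / 40 := min_le_left _ _
  have haβ : a ≤ β / 100 := min_le_right _ _
  obtain ⟨l₀, hl₀⟩ := eventually_atTop.1 ((ev_small ha0 (2 * C₁) D).and (eventually_ge_atTop (100 * |lt| + 200)))
  refine ⟨C₂ * (B.factorial * (1 / c₁) ^ B) + K₃ * 100 ^ B, max y₂ (Real.exp l₀), by positivity, ?_⟩
  intro y hy N hN
  have hy2 : y₂ ≤ y := (le_max_left _ _).trans hy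
  have hye : Real.exp l₀ ≤ y := (le_max_right _ _).trans hy
  have hypos : 0 < y := (Real.exp_pos _).trans_le hye
  have hll : l₀ ≤ Real.log y := by rwa [Real.le_log_iff_exp_le hypos]
  obtain ⟨e1, e2⟩ := hl₀ _ hll
  set l := Real.log y with hl
  have hlt0 : 0 ≤ |lt| := abs_nonneg lt
  have hl200 : 200 ≤ l := by linarith
  have hl0 : 0 < l := by linarith
  have hyexp : y = Real.exp l := (Real.exp_log hypos).symm
  have hy1 : 1 ≤ y := by rw [hyexp]; exact Real.one_le_exp hl0.le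
  set Y : ℝ := y ^ (1 / 100 : ℝ) with hY
  have hYexp : Y = Real.exp (l / 100) := by
    rw [hY, Real.rpow_def_of_pos hypos]; congr 1; ring
  have hYpos : 0 < Y := by rw [hYexp]; exact Real.exp_pos _
  have hlogY : Real.log Y = l / 100 := by rw [hYexp, Real.log_exp]
  have hY2 : 2 ≤ Y := by
    rw [hYexp]
    have := Real.add_one_le_exp (l / 100)
    linarith
  set Z : ℝ := y ^ (1 - c / 40) with hZ
  have hZexp : Z = Real.exp ((1 - c / 40) * l) := by rw [hZ, Real.rpow_def_of_pos hypos, mul_comm]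
  have hZpos : 0 < Z := by rw [hZexp]; exact Real.exp_pos _
  have hYZ : Y ≤ Z := by
    rw [hYexp, hZexp]
    apply Real.exp_le_exp.2
    nlinarith
  have hZy : Z ≤ y := by
    rw [hZexp, hyexp]
    apply Real.exp_le_exp.2
    have : 0 ≤ c / 40 * l := by positivity
    linarith
  set K : ℕ := ⌈c * l⌉₊ with hK
  obtain ⟨A, hA⟩ : ∃ A : Set ℤ, ∀ z : ℤ, z ∈ A ↔ Y ≤ z ∧ (z : ℝ) ≤ Z ∧ ¬ DescZ d B₁ Y y z :=
    ⟨{z : ℤ | Y ≤ z ∧ (z : ℝ) ≤ Z ∧ ¬ DescZ d B₁ Y y z}, fun z => Iff.rfl⟩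
  -- thinness
  have hA1 : ∀ X : ℝ, Y ≤ X → (((Icc ⌈Y⌉ ⌊X⌋).filter fun x => x ∈ A).card : ℝ)
      ≤ X * Real.exp (-(Real.log X) ^ (1 / 2 : ℝ)) := by
    intro X hX
    set X' := min X Z with hX'
    have hX'X : X' ≤ X := min_le_left _ _
    have hX'Z : X' ≤ Z := min_le_right _ _
    have hYX' : Y ≤ X' := le_min hX hYZ
    have hX'pos : 0 < X' := by linarith
    have hlX' : Real.log X' ≤ l := Real.log_le_log hX'pos (by linarith)
    have hlX'1 : 1 ≤ Real.log X' := by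
      have : Real.log Y ≤ Real.log X' := Real.log_le_log hYpos hYX'
      rw [hlogY] at this
      linarith
    have hsub : (Icc ⌈Y⌉ ⌊X⌋).filter (fun x => x ∈ A) ⊆
        (Icc (1 : ℤ) ⌊X'⌋).filter fun n => ¬ DescZ d B₁ Y y n := by
      intro x hx
      rw [mem_filter, mem_Icc, Int.ceil_le, Int.le_floor, hA] at hx
      obtain ⟨⟨g1, g2⟩, g3, g4, g5⟩ := hx
      rw [mem_filter, mem_Icc, Int.le_floor]
      refine ⟨⟨?_, le_min g2 g4⟩, g5⟩
      have : (0 : ℝ) < x := by linarith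
      have : (0 : ℤ) < x := by exact_mod_cast this
      omega
    have h4 : (((Icc ⌈Y⌉ ⌊X⌋).filter fun x => x ∈ A).card : ℝ)
        ≤ (((Icc (1 : ℤ) ⌊X'⌋).filter fun n => ¬ DescZ d B₁ Y y n).card : ℝ) := by
      exact_mod_cast card_le_card hsub
    refine h4.trans ((h X' Y y (by linarith) (by linarith) (by linarith)).trans ?_)
    refine le_trans ?_ (thin_mono hlX'1 hX'pos hX'X)
    have h5 : X' ^ 2 / y ≤ X' * Real.exp (-(a * l)) := by
      have h6 : X' / y ≤ Real.exp (-(a * l)) := by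
        rw [div_le_iff₀ hypos, hyexp, ← Real.exp_add]
        refine hX'Z.trans ?_
        rw [hZexp]
        apply Real.exp_le_exp.2
        have := mul_le_mul_of_nonneg_right hac hl0.le
        linarith
      calc X' ^ 2 / y = X' * (X' / y) := by ring
        _ ≤ _ := mul_le_mul_of_nonneg_left h6 hX'pos.le
    have h6 : X' / Y ^ β ≤ X' * Real.exp (-(a * l)) := by
      rw [div_eq_mul_inv]
      apply mul_le_mul_of_nonneg_left _ hX'pos.le
      rw [hYexp, ← Real.exp_mul, ← Real.exp_neg]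
      apply Real.exp_le_exp.2
      have := mul_le_mul_of_nonneg_right haβ hl0.le
      linarith
    have h7 : C₁ * Real.log X' ^ D ≤ C₁ * l ^ D :=
      mul_le_mul_of_nonneg_left (pow_le_pow_left₀ (by linarith) hlX' D) hC.le
    have h8 : Real.exp (-(l ^ (1 / 2 : ℝ))) ≤ Real.exp (-(Real.log X') ^ (1 / 2 : ℝ)) := by
      apply Real.exp_le_exp.2
      have := Real.rpow_le_rpow (by linarith : 0 ≤ Real.log X') hlX' (by norm_num : (0 : ℝ) ≤ 1 / 2)
      linarith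
    calc C₁ * Real.log X' ^ D * (X' ^ 2 / y + X' / Y ^ β)
        ≤ C₁ * l ^ D * (X' * Real.exp (-(a * l)) + X' * Real.exp (-(a * l))) := by
          apply mul_le_mul h7 (by linarith) (by positivity) (by positivity)
      _ = X' * (2 * C₁ * l ^ D * Real.exp (-(a * l))) := by ring
      _ ≤ X' * Real.exp (-(Real.log X') ^ (1 / 2 : ℝ)) :=
          mul_le_mul_of_nonneg_left (e1.trans h8) hX'pos.le
  have hlY : lt ≤ Real.log Y := by
    rw [hlogY]
    have := le_abs_self lt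
    linarith
  have hcount := hthin Y hYpos hlY A hA1 N
  have hf := hfirst y hy2 N hN
  -- decomposition
  have hsub : ((Icc 1 N).filter fun n : ℕ => ∃ j : ℕ, c * l ≤ j ∧ GoodZ d (2 * B₁) y ((Td d)^[j] n)).image
      (fun n : ℕ => (n : ℤ)) ⊆
      ((Icc 1 N).filter fun n : ℕ => Z < (((Td d)^[K] (n : ℤ) : ℤ) : ℝ)).image (fun n : ℕ => (n : ℤ)) ∪
      ((Icc (1 : ℤ) N).filter fun n => ∃ k : ℕ, (Td d)^[k] n ∈ A ∧ ∀ j ≤ k, Y ≤ (((Td d)^[j] n : ℤ) : ℝ)) := by
    intro x hx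
    rw [mem_image] at hx
    obtain ⟨n, hn, rfl⟩ := hx
    rw [mem_filter, mem_Icc] at hn
    obtain ⟨⟨hn1, hn2⟩, j, hj, hg⟩ := hn
    have hn1' : (1 : ℤ) ≤ n := by exact_mod_cast hn1
    have hKj : K ≤ j := by rw [hK, Nat.ceil_le]; exact hj
    rw [mem_union, mem_image, mem_filter, mem_Icc]
    by_cases hz : Z < (((Td d)^[K] (n : ℤ) : ℤ) : ℝ)
    · left
      exact ⟨n, by rw [mem_filter, mem_Icc]; exact ⟨⟨hn1, hn2⟩, hz⟩, rfl⟩
    · right
      refine ⟨⟨hn1', by exact_mod_cast hn2⟩, K, ?_⟩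
      -- all terms before the visit exceed `Y`
      have habove : ∀ i ≤ j, Y < (((Td d)^[i] (n : ℤ) : ℤ) : ℝ) := by
        intro i hi
        by_contra hcon
        push Not at hcon
        refine hg.2.2.2 ((Td d)^[i] (n : ℤ)) (iter_pos hd i hn1') hcon (j - i) ?_
        rw [← Function.iterate_add_apply]
        congr 1
        omega
      refine ⟨(hA _).2 ⟨(habove K hKj).le, not_lt.1 hz, ?_⟩, fun i hi => (habove i (hi.trans hKj)).le⟩
      rintro ⟨m, _, hm2, hm3⟩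
      have hmj : j - K ≤ m := by
        by_contra hcon
        push Not at hcon
        have h4 := habove (m + K) (by omega)
        rw [Function.iterate_add_apply] at h4
        linarith
      have h5 := hm3 (j - K) hmj
      rw [← Function.iterate_add_apply] at h5
      have h6 : j - K + K = j := by omega
      rw [h6] at h5
      linarith [hg.1]
  have h4 := (card_le_card hsub).trans (card_union_le _ _)
  rw [card_image_of_injective _ Nat.cast_injective, card_image_of_injective _ Nat.cast_injective] at h4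
  have h5 : (((Icc 1 N).filter fun n : ℕ => ∃ j : ℕ, c * l ≤ j ∧ GoodZ d (2 * B₁) y ((Td d)^[j] n)).card : ℝ)
      ≤ (((Icc 1 N).filter fun n : ℕ => Z < (((Td d)^[K] (n : ℤ) : ℤ) : ℝ)).card : ℝ)
      + (((Icc (1 : ℤ) N).filter fun n => ∃ k : ℕ, (Td d)^[k] n ∈ A ∧
        ∀ j ≤ k, Y ≤ (((Td d)^[j] n : ℤ) : ℝ)).card : ℝ) := by exact_mod_cast h4
  refine h5.trans ?_
  have h6 : y ^ (-c₁) ≤ (B.factorial * (1 / c₁) ^ B) / l ^ B := by
    have h7 := exp_neg_le B (by positivity : (0 : ℝ) < 1 / c₁) hl0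
    refine le_trans (le_of_eq ?_) h7
    rw [Real.rpow_def_of_pos hypos, ← hl]
    congr 1
    field_simp
  have hN0 : (0 : ℝ) ≤ N := Nat.cast_nonneg N
  have h7 : C₂ * N * y ^ (-c₁) ≤ C₂ * N * ((B.factorial * (1 / c₁) ^ B) / l ^ B) :=
    mul_le_mul_of_nonneg_left h6 (by positivity)
  have h8 : K₃ * N / Real.log Y ^ B = K₃ * 100 ^ B * N / l ^ B := by
    rw [hlogY, div_pow]
    field_simp
  rw [h8] at hcount
  have e : (C₂ * (B.factorial * (1 / c₁) ^ B) + K₃ * 100 ^ B) * N / l ^ B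
      = C₂ * N * ((B.factorial * (1 / c₁) ^ B) / l ^ B) + K₃ * 100 ^ B * N / l ^ B := by ring
  rw [e]
  linarith

theorem stmWZ_of {d : ℤ} (hd : d = 1 ∨ d = -1) (h1 : In1 d) (h2 : In2 d) (h3 : In3 d) : StmWZ d := by
  obtain ⟨B, C, β, D, hB, hC, hβ, hβ1, h⟩ := h1
  exact ⟨2 * B, by positivity, W1_of hd hB hC hβ hβ1 h, W2_of hd hB hC hβ hβ1 h h2 h3⟩

end Pool.Agent.H9PD
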