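import Pool.Agent.H9PD.E12
import Pool.Agent.Results.MP_0a5adf_nt.ExcursionsExplicit
import Pool.Agent.R344.TH.F

/-! Law of predecessor densities, part E13: descent and thin sets. -/

set_option autoImplicit false

namespace Pool.Agent.H9PD

open Finset Filter Topology
open Pool.Agent.H499R2.ND (Td exp_neg_le)

theorem in3_all {d : ℤ} (hd : Odd d) (hd3 : IsCoprime d 3) : In3 d := by
  intro B
  obtain ⟨l₀, K, hl₀, hK, hH⟩ := Pool.Agent.R344.TH.HY_count hd hd3 (γ := 1 / 4) (by norm_num) (by norm_num) B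
  refine ⟨l₀, K, hK, ?_⟩
  intro Y hY hl A hA N
  have h1 := hH Y hY hl A (by
    intro X hX
    have h2 := hA X hX
    rw [show (2 : ℝ) * (1 / 4) = 1 / 2 by norm_num]
    exact h2) N
  exact h1

theorem in1_one : In1 1 := by
  classical
  obtain ⟨B, C, hB, hC, h⟩ := Pool.Agent.Results.MP_0a5adf_nt.ExcursionsExplicit.result
  refine ⟨B, C, 6 / 100, 4, hB, hC, by norm_num, by norm_num, ?_⟩
  intro x y V hx hy hV
  refine le_trans ?_ (h x y V hx hy hV)
  unfold Pool.Agent.Results.MP_0a5adf_nt.ExcursionsExplicit.count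
  have hiff : ∀ n : ℕ, Pool.Agent.Results.MP_0a5adf_nt.ExcursionsExplicit.DescendsBelow B y V n ↔
      DescZ 1 B y V (n : ℤ) := by
    intro n
    unfold Pool.Agent.Results.MP_0a5adf_nt.ExcursionsExplicit.DescendsBelow DescZ
    have hT : Pool.Agent.Results.MP_0a5adf_nt.ExcursionsExplicit.T = TN := rfl
    rw [hT]
    simp only [TN_iter]
    push_cast
    rfl
  set S := {n : ℕ | 1 ≤ n ∧ (n : ℝ) ≤ x ∧
    ¬ Pool.Agent.Results.MP_0a5adf_nt.ExcursionsExplicit.DescendsBelow B y V n} with hS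
  have hfin : S.Finite := by
    apply (Set.finite_Iic ⌊x⌋₊).subset
    rintro n ⟨_, h1, _⟩
    exact Nat.le_floor h1
  set F := (Icc (1 : ℤ) ⌊x⌋).filter fun n => ¬ DescZ 1 B y V n with hF
  have hinj : Set.InjOn Int.toNat (F : Set ℤ) := by
    intro a ha b hb hab
    rw [mem_coe, hF, mem_filter, mem_Icc] at ha hb
    omega
  have hcard : F.card = (F.image Int.toNat).card := (card_image_of_injOn hinj).symm
  have hsub : ((F.image Int.toNat : Finset ℕ) : Set ℕ) ⊆ S := by
    intro n hn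
    rw [mem_coe, mem_image] at hn
    obtain ⟨z, hz, rfl⟩ := hn
    rw [hF, mem_filter, mem_Icc, Int.le_floor] at hz
    obtain ⟨⟨h1, h2⟩, h3⟩ := hz
    have h4 : ((z.toNat : ℕ) : ℤ) = z := Int.toNat_of_nonneg (by omega)
    refine ⟨by omega, ?_, ?_⟩
    · have : ((z.toNat : ℕ) : ℝ) = (z : ℝ) := by exact_mod_cast congrArg (fun w : ℤ => (w : ℝ)) h4
      rw [this]; exact h2
    · rw [hiff, h4]; exact h3
  have h1 := Set.ncard_le_ncard hsub hfin
  rw [Set.ncard_coe_finset, ← hcard] at h1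
  refine le_trans (le_of_eq ?_) (by exact_mod_cast h1 : ((F.card : ℕ) : ℝ) ≤ (S.ncard : ℝ))
  congr

/-- PIECE W -/
theorem stmWZ_one : StmWZ 1 :=
  stmWZ_of (Or.inl rfl) in1_one in2_one (in3_all (by decide) isCoprime_one_left)

end Pool.Agent.H9PD
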