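import Pool.Agent.H9PD.E1

/-! Law of predecessor densities, part E2: graded families above a threshold are equidistributed
modulo three in the windows a little above the threshold. -/

set_option autoImplicit false

namespace Pool.Agent.H9PD

open Pool.Agent.H320R2.PD Finset Filter Topology
open Pool.Agent.H499R2.ND
open Pool.Agent.H499R2.LT.B1 (MnG starG' MnG_add)

/-- graded families above the threshold `y` -/
def GT (y : ℝ) (d : ℤ) (S : ℤ → Set ℤ) : Prop :=
  ∀ a x : ℤ, y < (x : ℝ) → (x ∈ S a ↔ Td d x ∈ S (a + 1))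

theorem Td_ge {y : ℝ} {d : ℤ} (hd : Odd d) (hy : |(d : ℝ)| ≤ y) {x : ℤ} (hx : y < (x : ℝ)) :
    (x : ℝ) / 2 ≤ ((Td d x : ℤ) : ℝ) := by
  unfold Td
  by_cases h : x % 2 = 0
  · rw [if_pos h]
    have h2 : 2 * (x / 2) = x := by omega
    have h3 : (2 : ℝ) * ((x / 2 : ℤ) : ℝ) = x := by exact_mod_cast h2
    linarith
  · rw [if_neg h]
    have h2 : 2 * ((3 * x + d) / 2) = 3 * x + d := by
      obtain ⟨s, hs⟩ := hd; omega
    have h3 : (2 : ℝ) * (((3 * x + d) / 2 : ℤ) : ℝ) = 3 * x + d := by exact_mod_cast h2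
    have h4 := neg_abs_le (d : ℝ)
    have h5 : (0 : ℝ) ≤ |(d : ℝ)| := abs_nonneg _
    linarith

theorem GT_iter {y : ℝ} {d : ℤ} (hd : Odd d) (hy : |(d : ℝ)| ≤ y) {S : ℤ → Set ℤ} (hS : GT y d S) (j : ℕ) :
    ∀ a x : ℤ, y * 2 ^ j < (x : ℝ) → (x ∈ S a ↔ (Td d)^[j] x ∈ S (a + j)) := by
  have hy0 : 0 ≤ y := (abs_nonneg _).trans hy
  induction j with
  | zero => intro a x _; simp
  | succ j ih =>
    intro a x hx
    have h1 : y < (x : ℝ) := by
      have : y ≤ y * 2 ^ (j + 1) := le_mul_of_one_le_right hy0 (one_le_pow₀ (by norm_num))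
      linarith
    have h2 := Td_ge hd hy h1
    have h3 : y * 2 ^ j < ((Td d x : ℤ) : ℝ) := by
      rw [pow_succ] at hx
      linarith
    rw [hS a x h1, ih (a + 1) (Td d x) h3, Function.iterate_succ_apply]
    have : a + 1 + (j : ℤ) = a + ((j + 1 : ℕ) : ℤ) := by push_cast; ring
    rw [this]

theorem equi_oddT (B : ℕ) {d : ℤ} (hd : Odd d) (hd3 : IsCoprime d 3) {η : ℝ} (hη : 0 < η) (hη1 : η ≤ 1 / 10) :
    ∃ C t₀ : ℝ, 0 < C ∧ 8 ≤ t₀ ∧ ∀ y : ℝ, |(d : ℝ)| ≤ y → 1 ≤ y → ∀ S : ℤ → Set ℤ, GT y d S →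
      ∀ A : ℝ, 0 < A → t₀ ≤ Real.log A → (1 + η) * Real.log y ≤ Real.log A → ∀ m : ℕ, m ≤ 1 →
      ∀ a c c' : ℤ, ((cls (S a) A (2 * A) m 1 c).card : ℝ)
        ≤ (cls (S a) A (2 * A) m 1 c').card + C / (Real.log A) ^ B * (A / (2 * 3 ^ m)) := by
  obtain ⟨C, t₀, hC, ht₀, herr⟩ := err_eta B d hη hη1
  refine ⟨3 * C, t₀, by positivity, ht₀, ?_⟩
  intro y hdy hy1 S hS A hA ht hyt m hm a c c'
  set t := Real.log A with htdef
  have htpos : 0 < t := by linarith
  obtain ⟨k, hk⟩ : ∃ k : ℕ, k = ⌊η * t / 4⌋₊ := ⟨_, rfl⟩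
  obtain ⟨m', hm'⟩ : ∃ m' : ℕ, m' = ⌊Real.sqrt k⌋₊ := ⟨_, rfl⟩
  obtain ⟨hk1N, hm'k, hE⟩ := herr A hA ht k m m' hm hk hm'
  rw [← htdef] at hE
  have hY : 0 < A / (2 * 3 ^ m) := by positivity
  have hyA : y * 2 ^ (41 * k / 20) < A := by
    have hkt : (k : ℝ) ≤ η * t / 4 := by rw [hk]; exact Nat.floor_le (by positivity)
    have hypos : 0 < y := by linarith
    have hL : Real.log y + 1.4212 * k < t := by
      have h1 : 1.4212 * (k : ℝ) ≤ 0.3553 * (η * t) := by linarith
      have h2 : 0 < η * t := by positivity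
      by_contra hcon
      push Not at hcon
      have h3 : (1 - 0.3553 * η) * t ≤ Real.log y := by nlinarith
      have h4 : (1 + η) * ((1 - 0.3553 * η) * t) ≤ t := by
        have : (1 + η) * ((1 - 0.3553 * η) * t) ≤ (1 + η) * Real.log y :=
          mul_le_mul_of_nonneg_left h3 (by linarith)
        linarith
      nlinarith
    calc y * 2 ^ (41 * k / 20) ≤ Real.exp (Real.log y) * Real.exp (1.4212 * k) := by
          rw [Real.exp_log hypos]
          exact mul_le_mul_of_nonneg_left (pow_tm k) hypos.le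
      _ = Real.exp (Real.log y + 1.4212 * k) := by rw [Real.exp_add]
      _ < Real.exp t := Real.exp_lt_exp.2 hL
      _ = A := Real.exp_log hA
  have hy0 : 0 ≤ y := by linarith
  have hlen : ∀ w ∈ GW (3 * k) k ((39 * k + 19) / 20) (41 * k / 20), (∀ a ∈ w, 1 ≤ a) ∧ w.sum ≤ 41 * k / 20 := by
    intro w hw
    unfold GW at hw; rw [mem_filter] at hw
    exact ⟨(FW_props hw.1).2, hw.2.2⟩
  have hpath : ∀ w ∈ GW (3 * k) k ((39 * k + 19) / 20) (41 * k / 20), ∀ M x : ℤ, Odd M → Odd x →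
      A ≤ (M : ℝ) → Vw d w M x → (M ∈ S a ↔ x ∈ S (a + w.sum)) := by
    intro w hw M x hM hx hAM hV
    obtain ⟨h1, h2⟩ := hlen w hw
    have h3 := iter_word hd w h1 M x hM hx hV
    have h4 : y * 2 ^ w.sum < (M : ℝ) := by
      have : y * 2 ^ w.sum ≤ y * 2 ^ (41 * k / 20) :=
        mul_le_mul_of_nonneg_left (pow_le_pow_right₀ (by norm_num) h2) hy0
      linarith
    rw [GT_iter hd hdy hS w.sum a M h4, h3]
  have hempty : ∀ U : Set ℤ, U ∪ (∅ : Set ℤ) = U := Set.union_empty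
  have h1 := starG' hd hd3 (S := S a) (fun T : ℕ => S (a + T) ∪ ∅) hA
    (fun w hw M x hM hx hAM _ hMS hV => by
      rw [hempty]
      exact (hpath w hw M x hM hx hAM hV).1 hMS) hk1N hm'k (m := m) c
  have h2 := starG' hd hd3 (S := (S a)ᶜ) (fun T : ℕ => (S (a + T))ᶜ ∪ ∅) hA
    (fun w hw M x hM hx hAM _ hMS hV => by
      rw [hempty]
      exact fun h => hMS ((hpath w hw M x hM hx hAM hV).2 h)) hk1N hm'k (m := m) c'
  have h3 := MnG_add d (fun T : ℕ => S (a + T)) ∅ hA (m := m) hm'k (le_refl (0 : ℝ)) (by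
    intro T _ _ u v _
    have : cls (∅ : Set ℤ) (A * 3 ^ k / 2 ^ T) (2 * (A * 3 ^ k / 2 ^ T)) m' u v = ∅ := by
      rw [eq_empty_iff_forall_notMem]
      intro x hx
      rw [mem_cls] at hx
      exact hx.2.2.1
    rw [this]
    simp)
  have h4 := cls_compl (S a) A (2 * A) m 1 c'
  have h5 := le_cls_univ A (2 * A) m isCoprime_one_left c'
  rw [show 2 * A - A = A by ring] at h5
  -- `1 + 2^Tm ≤ Err * Y`
  have h6 : 1 + 2 ^ (41 * k / 20) ≤ Err d A k m m' * (A / (2 * 3 ^ m)) := by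
    unfold Err
    set G := GW (3 * k) k ((39 * k + 19) / 20) (41 * k / 20) with hG
    set δ := ∑ T ∈ range (k * (3 * k) + 1), dev (FWT (3 * k) k T) wwt (fun w => (Wo w : ℤ)) (k + m) m'
      with hδ
    set X := (2 : ℝ) ^ (41 * k / 20)
    set Y := A / (2 * 3 ^ m) with hYdef
    set Z := 2 * 3 ^ m / A with hZ
    set μ := ∑ w ∈ G, wwt w with hμ
    have hfac : Y * Z = 1 := by rw [hYdef, hZ]; field_simp
    have : ((1 + X * Z) * δ + (1 - μ) + (1 + (|(d : ℝ)| + 2) * X) * Z) * Y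
        = (Y + X * (Y * Z)) * δ + Y * (1 - μ) + (1 + (|(d : ℝ)| + 2) * X) * (Y * Z) := by ring
    rw [this, hfac]
    have hX : 0 < X := by positivity
    have hδnn : 0 ≤ δ := sum_nonneg fun _ _ => sum_nonneg fun _ _ => abs_nonneg _
    have hμ1 : μ ≤ 1 := by
      refine le_trans ?_ (sum_wwt_le (3 * k) k)
      rw [hμ, hG]; unfold GW
      apply sum_le_sum_of_subset_of_nonneg (filter_subset _ _)
      intro w _ _; unfold wwt; positivity
    have e1 : 0 ≤ (Y + X * 1) * δ := by positivity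
    have e2 : 0 ≤ Y * (1 - μ) := mul_nonneg hY.le (by linarith)
    have e3 : 0 ≤ |(d : ℝ)| * X := by positivity
    nlinarith
  have h7 : Err d A k m m' * (A / (2 * 3 ^ m)) ≤ C / t ^ B * (A / (2 * 3 ^ m)) :=
    mul_le_mul_of_nonneg_right hE hY.le
  have h8 : 3 * C / t ^ B * (A / (2 * 3 ^ m)) = 3 * (C / t ^ B * (A / (2 * 3 ^ m))) := by ring
  rw [h8]
  linarith

theorem Td_two' (d x : ℤ) : Td d (2 * x) = x := by unfold Td; rw [if_pos (by omega)]; omega

/-- parity decomposition -/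
theorem wc_parityT {y : ℝ} (hy0 : 0 ≤ y) {d : ℤ} {S : ℤ → Set ℤ} (h : GT y d S) {A : ℝ} (hyA : y < A)
    (a c : ℤ) : (wc (S a) A (2 * A) 3 c).card
      = (cls (S a) A (2 * A) 1 1 c).card + (wc (S (a + 1)) (A / 2) (2 * (A / 2)) 3 (2 * c)).card := by
  classical
  have hev : (wc (S (a + 1)) (A / 2) (2 * (A / 2)) 3 (2 * c)).card
      = ((wc (S (a + 1)) (A / 2) (2 * (A / 2)) 3 (2 * c)).image fun x => 2 * x).card := by
    rw [card_image_of_injective]
    intro x z hxz
    simp only at hxz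
    omega
  have two : ∀ x : ℤ, A ≤ ((2 * x : ℤ) : ℝ) → (2 * x ∈ S a ↔ x ∈ S (a + 1)) := by
    intro x hx
    rw [h a (2 * x) (by linarith), Td_two']
  rw [hev, ← card_union_of_disjoint]
  · congr 1
    ext x
    rw [mem_wc, mem_union, mem_cls, mem_image]
    constructor
    · rintro ⟨h1, h2, h3⟩
      rcases Int.even_or_odd x with he | ho
      · right
        obtain ⟨z, hz⟩ := he
        have hz2 : x = 2 * z := by omega
        refine ⟨z, ?_, by omega⟩
        rw [mem_wc]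
        have hxz : (x : ℝ) = 2 * z := by rw [hz]; push_cast; ring
        refine ⟨⟨by linarith [h1.1], by linarith [h1.2]⟩, ?_, by omega⟩
        rw [← two z (by rw [← hz2]; exact h1.1), ← hz2]; exact h2
      · left
        exact ⟨h1, ho, h2, by rw [pow_one, one_mul]; exact h3⟩
    · rintro (⟨h1, h2, h3, h4⟩ | ⟨z, hz, rfl⟩)
      · rw [pow_one, one_mul] at h4; exact ⟨h1, h3, h4⟩
      · rw [mem_wc] at hz
        obtain ⟨h1, h2, h3⟩ := hz
        have hA2 : A ≤ ((2 * z : ℤ) : ℝ) := by push_cast; linarith [h1.1]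
        refine ⟨⟨hA2, by push_cast; linarith [h1.2]⟩, (two z hA2).2 h2, by omega⟩
  · rw [Finset.disjoint_left]
    intro x hx hx'
    rw [mem_cls] at hx
    rw [mem_image] at hx'
    obtain ⟨z, _, rfl⟩ := hx'
    have := hx.2.1
    rw [Int.odd_iff] at this
    omega

/-- equidistribution modulo three of a graded family above a threshold -/
theorem equi_allT (B : ℕ) {d : ℤ} (hd : Odd d) (hd3 : IsCoprime d 3) {η : ℝ} (hη : 0 < η) (hη1 : η ≤ 1 / 10) :
    ∃ K t₀ : ℝ, 0 < K ∧ 8 ≤ t₀ ∧ ∀ y : ℝ, |(d : ℝ)| ≤ y → 1 ≤ y → ∀ S : ℤ → Set ℤ, GT y d S →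
      ∀ A : ℝ, 0 < A → t₀ ≤ Real.log A → (1 + η) * Real.log y ≤ Real.log A → ∀ a c c' : ℤ,
      ((wc (S a) A (2 * A) 3 c).card : ℝ)
        ≤ (wc (S a) A (2 * A) 3 c').card + K / (Real.log A) ^ B * A + K * Real.exp ((1 + η) * Real.log y) := by
  obtain ⟨C, t₁, hC, ht₁, he⟩ := equi_oddT B hd hd3 hη hη1
  have hl2 := Real.log_two_gt_d9
  have hl2' := Real.log_two_lt_d9
  -- `t₀` is such that `(t / (t - log 2)) ^ B ≤ 3 / 2` for `t ≥ t₀`
  obtain ⟨t₂, ht₂⟩ : ∃ t₂ : ℝ, ∀ t : ℝ, t₂ ≤ t → t ^ B ≤ 3 / 2 * (t - Real.log 2) ^ B := by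
    refine ⟨3 * B + 3, fun t ht => ?_⟩
    have hB0 : (0 : ℝ) ≤ B := Nat.cast_nonneg B
    have htp : 0 < t - Real.log 2 := by linarith
    have h1 : t * (1 - 1 / (3 * B + 3)) ≤ t - Real.log 2 := by
      have : Real.log 2 ≤ t * (1 / (3 * B + 3)) := by
        rw [mul_one_div, le_div_iff₀ (by linarith)]
        nlinarith
      linarith
    have h2 : 0 ≤ t * (1 - 1 / (3 * (B : ℝ) + 3)) := by
      apply mul_nonneg (by linarith)
      rw [sub_nonneg, div_le_one (by linarith)]
      linarith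
    have h3 := pow_le_pow_left₀ h2 h1 B
    rw [mul_pow] at h3
    have h4 : 2 / 3 ≤ (1 - 1 / (3 * (B : ℝ) + 3)) ^ B := by
      have := one_add_mul_le_pow (a := -(1 / (3 * (B : ℝ) + 3))) (by
        have : 1 / (3 * (B : ℝ) + 3) ≤ 1 := by rw [div_le_one (by linarith)]; linarith
        linarith) B
      have h5 : 2 / 3 ≤ 1 + (B : ℝ) * -(1 / (3 * (B : ℝ) + 3)) := by
        rw [mul_neg, mul_one_div, ← sub_eq_add_neg, le_sub_comm, div_le_iff₀ (by linarith)]
        linarith
      rw [← sub_eq_add_neg] at this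
      linarith
    have h5 : 0 ≤ t ^ B := pow_nonneg (by linarith) B
    nlinarith
  set t₀ := max (t₁ + 1) (max t₂ 8) with ht₀
  have ht01 : t₁ + 1 ≤ t₀ := le_max_left _ _
  have ht02 : t₂ ≤ t₀ := (le_max_left _ _).trans (le_max_right _ _)
  have ht08 : 8 ≤ t₀ := (le_max_right _ _).trans (le_max_right _ _)
  set K := 4 * C + 4 + 2 * t₀ ^ B * 3 with hK
  have ht0p : 0 < t₀ := by linarith
  have hKpos : 0 < K := by positivity
  refine ⟨K, t₀, hKpos, ht08, ?_⟩
  intro y hdy hy1 S hS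
  have hy0 : 0 ≤ y := by linarith
  set E := Real.exp ((1 + η) * Real.log y) with hE
  have hEpos : 0 < E := Real.exp_pos _
  have hlogy : 0 ≤ Real.log y := Real.log_nonneg hy1
  have hyE : y ≤ E := by
    have : Real.exp (Real.log y) ≤ E := by
      apply Real.exp_le_exp.2
      nlinarith
    rwa [Real.exp_log (by linarith)] at this
  -- small windows
  have htriv : ∀ A : ℝ, 0 < A → t₀ ≤ Real.log A → (1 + η) * Real.log y ≤ Real.log A →
      (Real.log A ≤ t₀ + 1 ∨ Real.log A ≤ (1 + η) * Real.log y + Real.log 2) → ∀ a c c' : ℤ,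
      ((wc (S a) A (2 * A) 3 c).card : ℝ)
        ≤ (wc (S a) A (2 * A) 3 c').card + K / (Real.log A) ^ B * A + K * E := by
    intro A hA h1 h1y h2 a c c'
    have h3 := wc_card_le (S a) (by linarith : A ≤ 2 * A) (q := 3) (by norm_num) c
    push_cast at h3
    have h4 : 1 ≤ A := by
      have : 0 < Real.log A := by linarith
      exact ((Real.log_pos_iff hA.le).1 this).le
    have h7 : (0 : ℝ) ≤ (wc (S a) A (2 * A) 3 c').card := Nat.cast_nonneg _
    have hlA : 0 < Real.log A := by linarith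
    have h9 : 0 ≤ K / (Real.log A) ^ B * A := by positivity
    have h10 : 0 ≤ K * E := by positivity
    rcases h2 with h2 | h2
    · have h5 : 2 ≤ K / (Real.log A) ^ B := by
        rw [le_div_iff₀ (by positivity)]
        have h6 : (Real.log A) ^ B ≤ (t₀ + 1) ^ B := pow_le_pow_left₀ hlA.le h2 B
        have h11 : (t₀ + 1) ^ B ≤ 3 / 2 * (t₀ + 1 - Real.log 2) ^ B := ht₂ (t₀ + 1) (by linarith)
        have h12 : (t₀ + 1 - Real.log 2) ^ B ≤ 3 / 2 * (t₀ + 1 - Real.log 2 - Real.log 2) ^ B :=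
          ht₂ _ (by linarith)
        have h13 : (t₀ + 1 - Real.log 2 - Real.log 2) ^ B ≤ t₀ ^ B :=
          pow_le_pow_left₀ (by linarith) (by linarith) B
        have h14 : 0 < t₀ ^ B := by positivity
        rw [hK]
        nlinarith
      have h6 : 2 * A ≤ K / (Real.log A) ^ B * A := mul_le_mul_of_nonneg_right h5 hA.le
      linarith
    · have h5 : A ≤ 2 * E := by
        have : Real.exp (Real.log A) ≤ Real.exp ((1 + η) * Real.log y + Real.log 2) := Real.exp_le_exp.2 h2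
        rw [Real.exp_log hA, Real.exp_add, Real.exp_log (by norm_num : (0 : ℝ) < 2)] at this
        linarith
      have h6 : 4 * E ≤ K * E := by
        apply mul_le_mul_of_nonneg_right _ hEpos.le
        rw [hK]
        have : 0 < t₀ ^ B := by positivity
        nlinarith
      linarith
  have main : ∀ n : ℕ, ∀ A : ℝ, 0 < A → t₀ ≤ Real.log A → (1 + η) * Real.log y ≤ Real.log A →
      Real.log A ≤ t₀ + 1 + n * Real.log 2 → ∀ a c c' : ℤ,
      ((wc (S a) A (2 * A) 3 c).card : ℝ)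
        ≤ (wc (S a) A (2 * A) 3 c').card + K / (Real.log A) ^ B * A + K * E := by
    intro n
    induction n with
    | zero =>
      intro A hA h1 h1y h2 a c c'
      exact htriv A hA h1 h1y (Or.inl (by simpa using h2)) a c c'
    | succ n ih =>
      intro A hA h1 h1y h2 a c c'
      rcases le_or_gt (Real.log A) (t₀ + 1) with h3 | h3
      · exact htriv A hA h1 h1y (Or.inl h3) a c c'
      rcases le_or_gt (Real.log A) ((1 + η) * Real.log y + Real.log 2) with h3' | h3'
      · exact htriv A hA h1 h1y (Or.inr h3') a c c'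
      have hlog : Real.log (A / 2) = Real.log A - Real.log 2 := Real.log_div hA.ne' (by norm_num)
      have hih := ih (A / 2) (by linarith) (by rw [hlog]; linarith) (by rw [hlog]; linarith) (by
        rw [hlog]; push_cast at h2; linarith) (a + 1) (2 * c) (2 * c')
      have hodd := he y hdy hy1 S hS A hA (by linarith) h1y 1 (le_refl 1) a c c'
      have hyA : y < A := by
        have : E < A := by
          have h4 : E < Real.exp (Real.log A) := Real.exp_lt_exp.2 (by linarith)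
          rwa [Real.exp_log hA] at h4
        linarith
      have e1 := wc_parityT hy0 hS hyA a c
      have e2 := wc_parityT hy0 hS hyA a c'
      have e1' : ((wc (S a) A (2 * A) 3 c).card : ℝ)
          = (cls (S a) A (2 * A) 1 1 c).card + (wc (S (a + 1)) (A / 2) (2 * (A / 2)) 3 (2 * c)).card := by
        exact_mod_cast e1
      have e2' : ((wc (S a) A (2 * A) 3 c').card : ℝ)
          = (cls (S a) A (2 * A) 1 1 c').card + (wc (S (a + 1)) (A / 2) (2 * (A / 2)) 3 (2 * c')).card := by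
        exact_mod_cast e2
      rw [e1', e2']
      set t := Real.log A with ht
      have htpos : 0 < t := by linarith
      have htl : 0 < t - Real.log 2 := by linarith
      have hK1 : K / (Real.log (A / 2)) ^ B * (A / 2) ≤ 3 / 4 * (K / t ^ B * A) := by
        rw [hlog]
        have h9 : K / (t - Real.log 2) ^ B ≤ 3 / 2 * (K / t ^ B) := by
          rw [div_le_iff₀ (by positivity)]
          have h10 := ht₂ t (by linarith)
          have h11 : 3 / 2 * (K / t ^ B) * (t - Real.log 2) ^ B = K * (3 / 2 * (t - Real.log 2) ^ B / t ^ B) := by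
            ring
          rw [h11]
          have h12 : 1 ≤ 3 / 2 * (t - Real.log 2) ^ B / t ^ B := by
            rw [le_div_iff₀ (by positivity)]; linarith
          nlinarith
        calc K / (t - Real.log 2) ^ B * (A / 2) ≤ (3 / 2 * (K / t ^ B)) * (A / 2) :=
              mul_le_mul_of_nonneg_right h9 (by linarith)
          _ = 3 / 4 * (K / t ^ B * A) := by ring
      have hC1 : C / t ^ B * (A / (2 * 3 ^ 1)) ≤ 1 / 4 * (K / t ^ B * A) := by
        have h9 : C / t ^ B * (A / (2 * 3 ^ 1)) = (C / 6) * (A / t ^ B) := by ring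
        have h10 : 1 / 4 * (K / t ^ B * A) = (K / 4) * (A / t ^ B) := by ring
        rw [h9, h10]
        apply mul_le_mul_of_nonneg_right _ (by positivity)
        rw [hK]
        have : 0 < t₀ ^ B := by positivity
        linarith
      linarith
  intro A hA h1 h1y a c c'
  obtain ⟨n, hn⟩ := exists_nat_ge ((Real.log A - (t₀ + 1)) / Real.log 2)
  have : Real.log A ≤ t₀ + 1 + n * Real.log 2 := by
    rw [div_le_iff₀ (by linarith)] at hn; linarith
  exact main n A hA h1 h1y this a c c'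

end Pool.Agent.H9PD
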