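import Pool.Agent.H9PD.E2

/-! Law of predecessor densities, part E3: harmonic sums over graded families above a threshold. -/

set_option autoImplicit false

namespace Pool.Agent.H9PD

open Pool.Agent.H320R2.PD Finset Filter Topology
open Pool.Agent.H499R2.ND

theorem absorb (B : ℕ) {ρ u t : ℝ} (hρ : 0 < ρ) (ht : 0 < t) (hu : u ≤ (1 - ρ) * t) :
    Real.exp u ≤ (B.factorial * (1 / ρ) ^ B) * (Real.exp t / t ^ B) := by
  have h1 := exp_neg_le B (by positivity : (0 : ℝ) < 1 / ρ) ht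
  have h2 : Real.exp u ≤ Real.exp t * Real.exp (-(t / (1 / ρ))) := by
    rw [← Real.exp_add]
    apply Real.exp_le_exp.2
    rw [div_div_eq_mul_div, div_one]
    linarith
  calc Real.exp u ≤ Real.exp t * Real.exp (-(t / (1 / ρ))) := h2
    _ ≤ Real.exp t * ((B.factorial * (1 / ρ) ^ B) / t ^ B) :=
        mul_le_mul_of_nonneg_left h1 (Real.exp_pos _).le
    _ = _ := by ring

theorem wc_add (S : Set ℤ) {a b e : ℝ} (h1 : a ≤ b) (h2 : b ≤ e) (q c : ℤ) :
    (wc S a e q c).card = (wc S a b q c).card + (wc S b e q c).card := by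
  classical
  rw [← card_union_of_disjoint]
  · congr 1
    ext x
    rw [mem_union, mem_wc, mem_wc, mem_wc]
    constructor
    · rintro ⟨⟨g1, g2⟩, g3, g4⟩
      rcases lt_or_ge (x : ℝ) b with h | h
      · exact Or.inl ⟨⟨g1, h⟩, g3, g4⟩
      · exact Or.inr ⟨⟨h, g2⟩, g3, g4⟩
    · rintro (⟨⟨g1, g2⟩, g3, g4⟩ | ⟨⟨g1, g2⟩, g3, g4⟩)
      · exact ⟨⟨g1, by linarith⟩, g3, g4⟩
      · exact ⟨⟨by linarith, g2⟩, g3, g4⟩
  · rw [Finset.disjoint_left]
    intro x hx hx'
    rw [mem_wc] at hx hx'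
    linarith [hx.1.2, hx'.1.1]

/-- `t ^ B ≤ (3/2) (t - log 2) ^ B` for large `t` -/
theorem pow_shift (B : ℕ) : ∀ t : ℝ, 3 * (B : ℝ) + 3 ≤ t → t ^ B ≤ 3 / 2 * (t - Real.log 2) ^ B := by
  intro t ht
  have hl2 := Real.log_two_gt_d9
  have hl2' := Real.log_two_lt_d9
  have hB0 : (0 : ℝ) ≤ B := Nat.cast_nonneg B
  have htp : 0 < t - Real.log 2 := by linarith
  have h1 : t * (1 - 1 / (3 * B + 3)) ≤ t - Real.log 2 := by
    have : Real.log 2 ≤ t * (1 / (3 * B + 3)) := by
      rw [mul_one_div, le_div_iff₀ (by linarith)]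
      nlinarith
    linarith
  have h2 : 0 ≤ t * (1 - 1 / (3 * (B : ℝ) + 3)) := by
    apply mul_nonneg (by linarith)
    rw [sub_nonneg, div_le_one (by linarith)]
    linarith
  have h3 := pow_le_pow_left₀ h2 h1 B
  rw [mul_pow] at h3
  have h4 : 2 / 3 ≤ (1 - 1 / (3 * (B : ℝ) + 3)) ^ B := by
    have := one_add_mul_le_pow (a := -(1 / (3 * (B : ℝ) + 3))) (by
      have : 1 / (3 * (B : ℝ) + 3) ≤ 1 := by rw [div_le_one (by linarith)]; linarith
      linarith) B
    have h5 : 2 / 3 ≤ 1 + (B : ℝ) * -(1 / (3 * (B : ℝ) + 3)) := by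
      rw [mul_neg, mul_one_div, ← sub_eq_add_neg, le_sub_comm, div_le_iff₀ (by linarith)]
      linarith
    rw [← sub_eq_add_neg] at this
    linarith
  have h5 : 0 ≤ t ^ B := pow_nonneg (by linarith) B
  nlinarith

/-- equidistribution modulo three, counted from `1` -/
theorem cum_equi (B : ℕ) {d : ℤ} (hd : Odd d) (hd3 : IsCoprime d 3) {η : ℝ} (hη : 0 < η) (hη1 : η ≤ 1 / 10) :
    ∃ K t₀ : ℝ, 0 < K ∧ 8 ≤ t₀ ∧ ∀ y : ℝ, |(d : ℝ)| ≤ y → 1 ≤ y → ∀ S : ℤ → Set ℤ, GT y d S →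
      ∀ X : ℝ, 0 < X → t₀ ≤ Real.log X → (1 + 3 * η) * Real.log y ≤ Real.log X → ∀ a c c' : ℤ,
      ((wc (S a) 1 X 3 c).card : ℝ) ≤ (wc (S a) 1 X 3 c').card + K * (X / (Real.log X) ^ B) := by
  obtain ⟨K₁, t₁, hK₁, ht₁, he⟩ := equi_allT B hd hd3 hη hη1
  have hl2 := Real.log_two_gt_d9
  have hl2' := Real.log_two_lt_d9
  have hB0 : (0 : ℝ) ≤ B := Nat.cast_nonneg B
  set P : ℝ := B.factorial * (1 / (η / 2)) ^ B with hP
  have hPpos : 0 < P := by positivity
  set t₀ : ℝ := max t₁ (3 * (B : ℝ) + 3) with ht₀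
  have ht01 : t₁ ≤ t₀ := le_max_left _ _
  have ht02 : 3 * (B : ℝ) + 3 ≤ t₀ := le_max_right _ _
  have ht08 : 8 ≤ t₀ := ht₁.trans ht01
  set K₁' : ℝ := K₁ * (1 + P) with hK₁'
  set K₂ : ℝ := 3 * K₁' + 2 * (t₀ + 1) ^ B + 4 with hK₂
  have hK₁'pos : 0 < K₁' := by positivity
  have hK₂pos : 0 < K₂ := by positivity
  refine ⟨K₂ * (1 + P), t₀, by positivity, ht08, ?_⟩
  intro y hdy hy1 S hS
  have hlogy : 0 ≤ Real.log y := Real.log_nonneg hy1
  set L := Real.log y with hL
  set E := Real.exp ((1 + 2 * η) * L) with hE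
  have hEpos : 0 < E := Real.exp_pos _
  -- window
  have hwin : ∀ A : ℝ, 0 < A → t₀ ≤ Real.log A → (1 + 2 * η) * L ≤ Real.log A → ∀ a c c' : ℤ,
      ((wc (S a) A (2 * A) 3 c).card : ℝ)
        ≤ (wc (S a) A (2 * A) 3 c').card + K₁' * (A / (Real.log A) ^ B) := by
    intro A hA h1 h2 a c c'
    have htp : 0 < Real.log A := by linarith
    have h3 := he y hdy hy1 S hS A hA (by linarith) (by nlinarith) a c c'
    have h4 : (1 + η) * L ≤ (1 - η / 2) * Real.log A := by
      have h5 : (1 - η / 2) * ((1 + 2 * η) * L) ≤ (1 - η / 2) * Real.log A :=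
        mul_le_mul_of_nonneg_left h2 (by linarith)
      have h6 : (1 + η) * L ≤ (1 - η / 2) * ((1 + 2 * η) * L) := by
        have : (1 + η) ≤ (1 - η / 2) * (1 + 2 * η) := by nlinarith
        calc (1 + η) * L ≤ ((1 - η / 2) * (1 + 2 * η)) * L := mul_le_mul_of_nonneg_right this hlogy
          _ = _ := by ring
      linarith
    have h5 := absorb B (by positivity : 0 < η / 2) htp h4
    rw [Real.exp_log hA, ← hP] at h5
    have h6 : K₁ * Real.exp ((1 + η) * L) ≤ K₁ * (P * (A / Real.log A ^ B)) :=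
      mul_le_mul_of_nonneg_left h5 hK₁.le
    have h7 : K₁' * (A / (Real.log A) ^ B) = K₁ / (Real.log A) ^ B * A + K₁ * (P * (A / Real.log A ^ B)) := by
      rw [hK₁']; ring
    linarith
  have htriv : ∀ X : ℝ, 0 < X → t₀ ≤ Real.log X →
      (Real.log X ≤ t₀ + Real.log 2 ∨ Real.log X ≤ (1 + 2 * η) * L + Real.log 2) → ∀ a c c' : ℤ,
      ((wc (S a) 1 X 3 c).card : ℝ)
        ≤ (wc (S a) 1 X 3 c').card + K₂ * (X / (Real.log X) ^ B) + K₂ * E := by
    intro X hX h1 h2 a c c'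
    have hlX : 0 < Real.log X := by linarith
    have h4 : 1 ≤ X := ((Real.log_pos_iff hX.le).1 hlX).le
    have h3 := wc_card_le (S a) h4 (q := 3) (by norm_num) c
    push_cast at h3
    have h7 : (0 : ℝ) ≤ (wc (S a) 1 X 3 c').card := Nat.cast_nonneg _
    have h9 : 0 ≤ K₂ * (X / (Real.log X) ^ B) := by positivity
    have h10 : 0 ≤ K₂ * E := by positivity
    rcases h2 with h2 | h2
    · have h5 : 1 ≤ K₂ / (Real.log X) ^ B := by
        rw [le_div_iff₀ (by positivity), one_mul]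
        have h6 : (Real.log X) ^ B ≤ (t₀ + 1) ^ B := pow_le_pow_left₀ hlX.le (by linarith) B
        have h11 : 0 < (t₀ + 1) ^ B := by positivity
        rw [hK₂]
        linarith
      have h6 : X ≤ K₂ * (X / (Real.log X) ^ B) := by
        have := mul_le_mul_of_nonneg_right h5 hX.le
        calc X = 1 * X := by ring
          _ ≤ _ := this
          _ = _ := by ring
      linarith
    · have h5 : X ≤ 2 * E := by
        have : Real.exp (Real.log X) ≤ Real.exp ((1 + 2 * η) * L + Real.log 2) := Real.exp_le_exp.2 h2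
        rw [Real.exp_log hX, Real.exp_add, Real.exp_log (by norm_num : (0 : ℝ) < 2)] at this
        linarith
      have h6 : 4 * E ≤ K₂ * E := by
        apply mul_le_mul_of_nonneg_right _ hEpos.le
        rw [hK₂]
        have : 0 < (t₀ + 1) ^ B := by positivity
        linarith
      linarith
  have main : ∀ n : ℕ, ∀ X : ℝ, 0 < X → t₀ ≤ Real.log X →
      Real.log X ≤ t₀ + n * Real.log 2 → ∀ a c c' : ℤ,
      ((wc (S a) 1 X 3 c).card : ℝ)
        ≤ (wc (S a) 1 X 3 c').card + K₂ * (X / (Real.log X) ^ B) + K₂ * E := by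
    intro n
    induction n with
    | zero =>
      intro X hX h1 h2 a c c'
      refine htriv X hX h1 (Or.inl ?_) a c c'
      push_cast at h2
      linarith
    | succ n ih =>
      intro X hX h1 h2 a c c'
      rcases le_or_gt (Real.log X) (t₀ + Real.log 2) with h3 | h3
      · exact htriv X hX h1 (Or.inl h3) a c c'
      rcases le_or_gt (Real.log X) ((1 + 2 * η) * L + Real.log 2) with h3' | h3'
      · exact htriv X hX h1 (Or.inr h3') a c c'
      have hlog : Real.log (X / 2) = Real.log X - Real.log 2 := Real.log_div hX.ne' (by norm_num)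
      have hih := ih (X / 2) (by linarith) (by rw [hlog]; linarith) (by
        rw [hlog]; push_cast at h2; linarith) a c c'
      have hw := hwin (X / 2) (by linarith) (by rw [hlog]; linarith) (by rw [hlog]; linarith) a c c'
      have hX1 : 1 ≤ X / 2 := by
        have : 0 < Real.log (X / 2) := by rw [hlog]; linarith
        exact ((Real.log_pos_iff (by linarith)).1 this).le
      rw [show 2 * (X / 2) = X by ring] at hw
      have e1 := wc_add (S a) hX1 (by linarith : X / 2 ≤ X) 3 c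
      have e2 := wc_add (S a) hX1 (by linarith : X / 2 ≤ X) 3 c'
      have e1' : ((wc (S a) 1 X 3 c).card : ℝ)
          = (wc (S a) 1 (X / 2) 3 c).card + (wc (S a) (X / 2) X 3 c).card := by exact_mod_cast e1
      have e2' : ((wc (S a) 1 X 3 c').card : ℝ)
          = (wc (S a) 1 (X / 2) 3 c').card + (wc (S a) (X / 2) X 3 c').card := by exact_mod_cast e2
      rw [e1', e2']
      set t := Real.log X with ht
      have htpos : 0 < t := by linarith
      have htl : 0 < t - Real.log 2 := by linarith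
      have hhalf : (X / 2) / (Real.log (X / 2)) ^ B ≤ 3 / 4 * (X / t ^ B) := by
        rw [hlog, div_le_iff₀ (by positivity)]
        have h10 := pow_shift B t (by linarith)
        have h11 : 3 / 4 * (X / t ^ B) * (t - Real.log 2) ^ B = X / 2 * ((3 / 2 * (t - Real.log 2) ^ B) / t ^ B) := by
          ring
        rw [h11]
        have h12 : 1 ≤ 3 / 2 * (t - Real.log 2) ^ B / t ^ B := by
          rw [le_div_iff₀ (by positivity)]; linarith
        nlinarith
      have h13 : K₂ * ((X / 2) / (Real.log (X / 2)) ^ B) ≤ K₂ * (3 / 4 * (X / t ^ B)) :=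
        mul_le_mul_of_nonneg_left hhalf hK₂pos.le
      have h14 : K₁' * ((X / 2) / (Real.log (X / 2)) ^ B) ≤ K₁' * (3 / 4 * (X / t ^ B)) :=
        mul_le_mul_of_nonneg_left hhalf hK₁'pos.le
      have h15 : 0 < X / t ^ B := by positivity
      have h16 : 3 * K₁' ≤ K₂ := by
        rw [hK₂]
        have : 0 < (t₀ + 1) ^ B := by positivity
        linarith
      have h17 : 3 * K₁' * (X / t ^ B) ≤ K₂ * (X / t ^ B) := mul_le_mul_of_nonneg_right h16 h15.le
      linarith
  intro X hX h1 h2 a c c'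
  obtain ⟨n, hn⟩ := exists_nat_ge ((Real.log X - t₀) / Real.log 2)
  have hn' : Real.log X ≤ t₀ + n * Real.log 2 := by
    rw [div_le_iff₀ (by linarith)] at hn; linarith
  have h3 := main n X hX h1 hn' a c c'
  have htp : 0 < Real.log X := by linarith
  have h4 : (1 + 2 * η) * L ≤ (1 - η / 2) * Real.log X := by
    have h5 : (1 - η / 2) * ((1 + 3 * η) * L) ≤ (1 - η / 2) * Real.log X :=
      mul_le_mul_of_nonneg_left h2 (by linarith)
    have h6 : (1 + 2 * η) * L ≤ (1 - η / 2) * ((1 + 3 * η) * L) := by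
      have : (1 + 2 * η) ≤ (1 - η / 2) * (1 + 3 * η) := by nlinarith
      calc (1 + 2 * η) * L ≤ ((1 - η / 2) * (1 + 3 * η)) * L := mul_le_mul_of_nonneg_right this hlogy
        _ = _ := by ring
    linarith
  have h5 := absorb B (by positivity : 0 < η / 2) htp h4
  rw [Real.exp_log hX, ← hP] at h5
  have h6 : K₂ * E ≤ K₂ * (P * (X / Real.log X ^ B)) := mul_le_mul_of_nonneg_left h5 hK₂pos.le
  have h7 : K₂ * (1 + P) * (X / (Real.log X) ^ B)
      = K₂ * (X / (Real.log X) ^ B) + K₂ * (P * (X / Real.log X ^ B)) := by ring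
  linarith

/-! ### partial summation -/

open Classical in
/-- the signed weight `-1/2 + (3/2) [3 ∣ 2 n - d]` of the elements of `S` -/
noncomputable def sw (S : Set ℤ) (d : ℤ) (n : ℕ) : ℝ :=
  if (n : ℤ) ∈ S then -1 / 2 + (if (3 : ℤ) ∣ 2 * n - d then 3 / 2 else 0) else 0

/-- the harmonic weight -/
noncomputable def ee (d n : ℤ) : ℝ :=
  -1 / (2 * (n : ℝ)) + if (3 : ℤ) ∣ 2 * n - d then 3 / (2 * (n : ℝ) - d) else 0

theorem wc_succ (S : Set ℤ) (N : ℕ) (c : ℤ) : ((wc S 1 ((N : ℝ) + 1 + 1) 3 c).card : ℝ)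
    = (wc S 1 ((N : ℝ) + 1) 3 c).card + (by classical exact if ((N : ℤ) + 1) ∈ S ∧ (3 : ℤ) ∣ (N : ℤ) + 1 - c then (1 : ℝ) else 0) := by
  classical
  have hN : (0 : ℝ) ≤ N := Nat.cast_nonneg N
  have e1 := wc_add S (by linarith : (1 : ℝ) ≤ (N : ℝ) + 1) (by linarith : (N : ℝ) + 1 ≤ (N : ℝ) + 1 + 1) 3 c
  have e2 : ((wc S ((N : ℝ) + 1) ((N : ℝ) + 1 + 1) 3 c).card : ℝ)
      = if ((N : ℤ) + 1) ∈ S ∧ (3 : ℤ) ∣ (N : ℤ) + 1 - c then (1 : ℝ) else 0 := by
    have key : ∀ x : ℤ, ((N : ℝ) + 1 ≤ (x : ℝ) ∧ (x : ℝ) < (N : ℝ) + 1 + 1) ↔ x = (N : ℤ) + 1 := by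
      intro x
      constructor
      · rintro ⟨h1, h2⟩
        have h1' : (N : ℤ) + 1 ≤ x := by exact_mod_cast h1
        have h2' : x < (N : ℤ) + 1 + 1 := by exact_mod_cast h2
        omega
      · rintro rfl
        push_cast
        constructor <;> linarith
    by_cases h : ((N : ℤ) + 1) ∈ S ∧ (3 : ℤ) ∣ (N : ℤ) + 1 - c
    · rw [if_pos h]
      have : wc S ((N : ℝ) + 1) ((N : ℝ) + 1 + 1) 3 c = {(N : ℤ) + 1} := by
        ext x
        rw [mem_wc, mem_singleton, key]
        constructor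
        · exact fun h => h.1
        · rintro rfl; exact ⟨rfl, h⟩
      rw [this, card_singleton, Nat.cast_one]
    · rw [if_neg h]
      have : wc S ((N : ℝ) + 1) ((N : ℝ) + 1 + 1) 3 c = ∅ := by
        rw [eq_empty_iff_forall_notMem]
        intro x hx
        rw [mem_wc, key] at hx
        obtain ⟨rfl, h2⟩ := hx
        exact h h2
      rw [this, card_empty, Nat.cast_zero]
  rw [e1, Nat.cast_add, e2]

/-- the sum of the signed weights, by residue classes -/
theorem sw_sum (S : Set ℤ) (d : ℤ) (N : ℕ) : ∑ n ∈ Icc 1 N, sw S d n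
    = 3 / 2 * (wc S 1 ((N : ℝ) + 1) 3 (2 * d)).card
      - 1 / 2 * ((wc S 1 ((N : ℝ) + 1) 3 0).card + (wc S 1 ((N : ℝ) + 1) 3 1).card
        + (wc S 1 ((N : ℝ) + 1) 3 2).card) := by
  classical
  induction N with
  | zero =>
    have : ∀ c : ℤ, wc S 1 (((0 : ℕ) : ℝ) + 1) 3 c = ∅ := by
      intro c
      rw [eq_empty_iff_forall_notMem]
      intro x hx
      rw [mem_wc] at hx
      push_cast at hx
      linarith [hx.1.1, hx.1.2]
    rw [this, this, this, this]
    simp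
  | succ N ih =>
    rw [sum_Icc_succ_top (by omega), ih]
    push_cast
    rw [wc_succ, wc_succ, wc_succ, wc_succ]
    unfold sw
    push_cast
    by_cases hS : ((N : ℤ) + 1) ∈ S
    · simp only [hS, if_true, true_and]
      have h3 : (3 : ℤ) ∣ 2 * ((N : ℤ) + 1) - d ↔ (3 : ℤ) ∣ (N : ℤ) + 1 - 2 * d := by omega
      have hcases : ((3 : ℤ) ∣ (N : ℤ) + 1 - 0 ∧ ¬ (3 : ℤ) ∣ (N : ℤ) + 1 - 1 ∧ ¬ (3 : ℤ) ∣ (N : ℤ) + 1 - 2) ∨
          (¬ (3 : ℤ) ∣ (N : ℤ) + 1 - 0 ∧ (3 : ℤ) ∣ (N : ℤ) + 1 - 1 ∧ ¬ (3 : ℤ) ∣ (N : ℤ) + 1 - 2) ∨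
          (¬ (3 : ℤ) ∣ (N : ℤ) + 1 - 0 ∧ ¬ (3 : ℤ) ∣ (N : ℤ) + 1 - 1 ∧ (3 : ℤ) ∣ (N : ℤ) + 1 - 2) := by omega
      simp only [h3]
      by_cases hc : (3 : ℤ) ∣ (N : ℤ) + 1 - 2 * d
      · simp only [hc, if_true]
        rcases hcases with ⟨h0, h1, h2⟩ | ⟨h0, h1, h2⟩ | ⟨h0, h1, h2⟩
        · rw [if_pos h0, if_neg h1, if_neg h2]; ring
        · rw [if_neg h0, if_pos h1, if_neg h2]; ring
        · rw [if_neg h0, if_neg h1, if_pos h2]; ring
      · simp only [hc, if_false]
        rcases hcases with ⟨h0, h1, h2⟩ | ⟨h0, h1, h2⟩ | ⟨h0, h1, h2⟩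
        · rw [if_pos h0, if_neg h1, if_neg h2]; ring
        · rw [if_neg h0, if_pos h1, if_neg h2]; ring
        · rw [if_neg h0, if_neg h1, if_pos h2]; ring
    · simp only [hS, if_false, false_and]
      ring

theorem abel (s : ℕ → ℝ) (N₀ M : ℕ) (h : N₀ ≤ M) : ∑ n ∈ Ioc N₀ M, s n / n
    = (∑ n ∈ Icc 1 M, s n) / (M + 1) - (∑ n ∈ Icc 1 N₀, s n) / (N₀ + 1)
      + ∑ n ∈ Ioc N₀ M, (∑ j ∈ Icc 1 n, s j) / (n * (n + 1)) := by
  induction M, h using Nat.le_induction with
  | base => simp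
  | succ M hM ih =>
    rw [sum_Ioc_succ_top hM, sum_Ioc_succ_top hM, ih, sum_Icc_succ_top (by omega : 1 ≤ M + 1)]
    have h1 : (0 : ℝ) < (M : ℝ) + 1 := by positivity
    have h2 : (0 : ℝ) < (M : ℝ) + 1 + 1 := by positivity
    push_cast
    field_simp
    ring

/-- telescoping bound -/
theorem tele_log (N₀ M : ℕ) (h0 : 3 ≤ N₀) (h : N₀ ≤ M) :
    ∑ n ∈ Ioc N₀ M, 1 / (((n : ℝ) + 1) * Real.log ((n : ℝ) + 1) ^ 2)
      ≤ 1 / Real.log ((N₀ : ℝ) + 1) - 1 / Real.log ((M : ℝ) + 1) := by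
  induction M, h using Nat.le_induction with
  | base => simp
  | succ M hM ih =>
    rw [sum_Ioc_succ_top hM]
    have hM3 : (3 : ℝ) ≤ M := by exact_mod_cast (h0.trans hM)
    push_cast
    have hl1 : 0 < Real.log ((M : ℝ) + 1) := Real.log_pos (by linarith)
    have hl2 : Real.log ((M : ℝ) + 1) ≤ Real.log ((M : ℝ) + 1 + 1) :=
      Real.log_le_log (by linarith) (by linarith)
    have hl3 : 1 / ((M : ℝ) + 1 + 1) ≤ Real.log ((M : ℝ) + 1 + 1) - Real.log ((M : ℝ) + 1) := by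
      have h1 : Real.log (((M : ℝ) + 1) / ((M : ℝ) + 1 + 1)) ≤ ((M : ℝ) + 1) / ((M : ℝ) + 1 + 1) - 1 :=
        Real.log_le_sub_one_of_pos (by positivity)
      rw [Real.log_div (by positivity) (by positivity)] at h1
      have h2 : ((M : ℝ) + 1) / ((M : ℝ) + 1 + 1) - 1 = -(1 / ((M : ℝ) + 1 + 1)) := by
        field_simp
        ring
      linarith
    have hb : 1 / (((M : ℝ) + 1 + 1) * Real.log ((M : ℝ) + 1 + 1) ^ 2)
        ≤ 1 / Real.log ((M : ℝ) + 1) - 1 / Real.log ((M : ℝ) + 1 + 1) := by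
      have hl4 : 0 < Real.log ((M : ℝ) + 1 + 1) := by linarith
      have e1 : 1 / Real.log ((M : ℝ) + 1) - 1 / Real.log ((M : ℝ) + 1 + 1)
          = (Real.log ((M : ℝ) + 1 + 1) - Real.log ((M : ℝ) + 1)) /
            (Real.log ((M : ℝ) + 1) * Real.log ((M : ℝ) + 1 + 1)) := by
        field_simp
      rw [e1]
      calc 1 / (((M : ℝ) + 1 + 1) * Real.log ((M : ℝ) + 1 + 1) ^ 2)
          = (1 / ((M : ℝ) + 1 + 1)) / (Real.log ((M : ℝ) + 1 + 1) ^ 2) := by rw [div_div]
        _ ≤ (Real.log ((M : ℝ) + 1 + 1) - Real.log ((M : ℝ) + 1)) / (Real.log ((M : ℝ) + 1 + 1) ^ 2) := by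
            apply div_le_div_of_nonneg_right hl3 (by positivity)
        _ ≤ _ := by
            apply div_le_div_of_nonneg_left (by linarith) (by positivity)
            rw [pow_two]
            exact mul_le_mul_of_nonneg_right hl2 hl4.le
    linarith

theorem tele_sq (N₀ M : ℕ) (h : N₀ ≤ M) :
    ∑ n ∈ Ioc N₀ M, 1 / ((n : ℝ) * ((n : ℝ) + 1)) ≤ 1 / ((N₀ : ℝ) + 1) - 1 / ((M : ℝ) + 1) := by
  induction M, h using Nat.le_induction with
  | base => simp
  | succ M hM ih =>
    rw [sum_Ioc_succ_top hM]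
    push_cast
    have h1 : (0 : ℝ) < (M : ℝ) + 1 := by positivity
    have h2 : (0 : ℝ) < (M : ℝ) + 1 + 1 := by positivity
    have e : 1 / (((M : ℝ) + 1) * ((M : ℝ) + 1 + 1)) = 1 / ((M : ℝ) + 1) - 1 / ((M : ℝ) + 1 + 1) := by
      field_simp
      ring
    linarith

open Classical in
/-- HARMONIC SUMS over graded families -/
theorem esum (B : ℕ) {d : ℤ} (hd : Odd d) (hd3 : IsCoprime d 3) {η : ℝ} (hη : 0 < η) (hη1 : η ≤ 1 / 10) :
    ∃ K t₀ : ℝ, 0 < K ∧ 8 ≤ t₀ ∧ ∀ y : ℝ, |(d : ℝ)| ≤ y → 1 ≤ y → ∀ S : ℤ → Set ℤ, GT y d S →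
      ∀ N₀ M : ℕ, t₀ ≤ Real.log N₀ → (1 + 3 * η) * Real.log y ≤ Real.log N₀ → ∀ a : ℤ,
      |∑ n ∈ Ioc N₀ M, (if (n : ℤ) ∈ S a then ee d n else 0)| ≤ K / (Real.log N₀) ^ B := by
  obtain ⟨K₁, t₀, hK₁, ht₀, he⟩ := cum_equi (B + 2) hd hd3 hη hη1
  set K : ℝ := 12 * K₁ + 3 * |(d : ℝ)| * B.factorial with hK
  have hd0 : 0 ≤ |(d : ℝ)| := abs_nonneg _
  refine ⟨K, t₀, by positivity, ht₀, ?_⟩
  intro y hdy hy1 S hS N₀ M h1 h2 a
  have hlpos : 0 < Real.log N₀ := by linarith
  rcases le_or_gt N₀ M with hM | hM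
  swap
  · rw [Ioc_eq_empty (by omega), sum_empty, abs_zero]
    positivity
  have hN0 : (0 : ℝ) < N₀ := by
    rcases Nat.eq_zero_or_pos N₀ with h | h
    · rw [h] at hlpos; simp at hlpos
    · exact_mod_cast h
  have hlogy : 0 ≤ Real.log y := Real.log_nonneg hy1
  have hyN : y ≤ N₀ := by
    have : Real.log y ≤ Real.log N₀ := by nlinarith
    exact (Real.log_le_log_iff (by linarith) hN0).1 this
  have hN3 : 3 ≤ N₀ := by
    have h3 : Real.log N₀ ≤ N₀ - 1 := Real.log_le_sub_one_of_pos hN0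
    have : (3 : ℝ) ≤ N₀ := by linarith
    exact_mod_cast this
  set L := Real.log N₀ with hL
  -- cumulative bound
  have hcum : ∀ n : ℕ, N₀ ≤ n → |∑ j ∈ Icc 1 n, sw (S a) d j|
      ≤ 3 / 2 * K₁ * (((n : ℝ) + 1) / Real.log ((n : ℝ) + 1) ^ (B + 2)) := by
    intro n hn
    have hnR : (N₀ : ℝ) ≤ n := by exact_mod_cast hn
    have hlog : L ≤ Real.log ((n : ℝ) + 1) := Real.log_le_log hN0 (by linarith)
    have hh := he y hdy hy1 S hS ((n : ℝ) + 1) (by positivity) (by linarith) (by linarith) a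
    rw [sw_sum, abs_le]
    have a0 := hh (2 * d) 0
    have a1 := hh (2 * d) 1
    have a2 := hh (2 * d) 2
    have b0 := hh 0 (2 * d)
    have b1 := hh 1 (2 * d)
    have b2 := hh 2 (2 * d)
    constructor <;> linarith
  -- main part
  have hmain : |∑ n ∈ Ioc N₀ M, sw (S a) d n / n| ≤ 12 * K₁ / L ^ B := by
    rw [abel _ N₀ M hM]
    have hlogN : L ≤ Real.log ((N₀ : ℝ) + 1) := Real.log_le_log hN0 (by linarith)
    have hlogM : L ≤ Real.log ((M : ℝ) + 1) := by
      apply Real.log_le_log hN0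
      have : (N₀ : ℝ) ≤ M := by exact_mod_cast hM
      linarith
    have hend : ∀ n : ℕ, N₀ ≤ n → |(∑ j ∈ Icc 1 n, sw (S a) d j) / ((n : ℝ) + 1)| ≤ 3 / 2 * K₁ / L ^ B := by
      intro n hn
      have h3 := hcum n hn
      have hn0 : (0 : ℝ) < (n : ℝ) + 1 := by positivity
      have hlog : L ≤ Real.log ((n : ℝ) + 1) := by
        apply Real.log_le_log hN0
        have : (N₀ : ℝ) ≤ n := by exact_mod_cast hn
        linarith
      rw [abs_div, abs_of_pos hn0, div_le_iff₀ hn0]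
      refine h3.trans ?_
      have h4 : L ^ B ≤ Real.log ((n : ℝ) + 1) ^ (B + 2) := by
        calc L ^ B ≤ L ^ (B + 2) := pow_le_pow_right₀ (by linarith) (by omega)
          _ ≤ _ := pow_le_pow_left₀ hlpos.le hlog _
      have h5 : ((n : ℝ) + 1) / Real.log ((n : ℝ) + 1) ^ (B + 2) ≤ ((n : ℝ) + 1) / L ^ B :=
        div_le_div_of_nonneg_left hn0.le (by positivity) h4
      calc 3 / 2 * K₁ * (((n : ℝ) + 1) / Real.log ((n : ℝ) + 1) ^ (B + 2))
          ≤ 3 / 2 * K₁ * (((n : ℝ) + 1) / L ^ B) := mul_le_mul_of_nonneg_left h5 (by positivity)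
        _ = _ := by ring
    have hmid : |∑ n ∈ Ioc N₀ M, (∑ j ∈ Icc 1 n, sw (S a) d j) / ((n : ℝ) * ((n : ℝ) + 1))|
        ≤ 3 * K₁ / L ^ B := by
      refine (abs_sum_le_sum_abs _ _).trans ?_
      calc ∑ n ∈ Ioc N₀ M, |(∑ j ∈ Icc 1 n, sw (S a) d j) / ((n : ℝ) * ((n : ℝ) + 1))|
          ≤ ∑ n ∈ Ioc N₀ M, (3 * K₁ / L ^ B) * (1 / (((n : ℝ) + 1) * Real.log ((n : ℝ) + 1) ^ 2)) := by
            apply sum_le_sum
            intro n hn
            rw [mem_Ioc] at hn
            have h3 := hcum n hn.1.le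
            have hnR : (N₀ : ℝ) ≤ n := by exact_mod_cast hn.1.le
            have hn1 : (1 : ℝ) ≤ n := by
              have : (3 : ℝ) ≤ N₀ := by exact_mod_cast hN3
              linarith
            have hn0 : (0 : ℝ) < (n : ℝ) := by linarith
            have hlog : L ≤ Real.log ((n : ℝ) + 1) := Real.log_le_log hN0 (by linarith)
            have hlp : 0 < Real.log ((n : ℝ) + 1) := by linarith
            rw [abs_div, abs_of_pos (by positivity : (0 : ℝ) < (n : ℝ) * ((n : ℝ) + 1)),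
              div_le_iff₀ (by positivity)]
            refine h3.trans ?_
            have e1 : Real.log ((n : ℝ) + 1) ^ (B + 2) = Real.log ((n : ℝ) + 1) ^ B * Real.log ((n : ℝ) + 1) ^ 2 :=
              pow_add _ _ _
            rw [e1]
            have h4 : L ^ B ≤ Real.log ((n : ℝ) + 1) ^ B := pow_le_pow_left₀ hlpos.le hlog _
            have h5 : 1 / (Real.log ((n : ℝ) + 1) ^ B * Real.log ((n : ℝ) + 1) ^ 2)
                ≤ 1 / (L ^ B * Real.log ((n : ℝ) + 1) ^ 2) := by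
              apply one_div_le_one_div_of_le (by positivity)
              exact mul_le_mul_of_nonneg_right h4 (by positivity)
            calc 3 / 2 * K₁ * (((n : ℝ) + 1) / (Real.log ((n : ℝ) + 1) ^ B * Real.log ((n : ℝ) + 1) ^ 2))
                = 3 / 2 * K₁ * ((n : ℝ) + 1) * (1 / (Real.log ((n : ℝ) + 1) ^ B * Real.log ((n : ℝ) + 1) ^ 2)) := by
                  ring
              _ ≤ 3 / 2 * K₁ * (2 * (n : ℝ)) * (1 / (L ^ B * Real.log ((n : ℝ) + 1) ^ 2)) := by
                  apply mul_le_mul _ h5 (by positivity) (by positivity)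
                  apply mul_le_mul_of_nonneg_left (by linarith) (by positivity)
              _ = _ := by field_simp
        _ = (3 * K₁ / L ^ B) * ∑ n ∈ Ioc N₀ M, (1 / (((n : ℝ) + 1) * Real.log ((n : ℝ) + 1) ^ 2)) := by
            rw [mul_sum]
        _ ≤ (3 * K₁ / L ^ B) * 1 := by
            apply mul_le_mul_of_nonneg_left _ (by positivity)
            refine (tele_log N₀ M hN3 hM).trans ?_
            have h3 : 0 < 1 / Real.log ((M : ℝ) + 1) := by
              apply one_div_pos.2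
              linarith
            have h4 : 1 / Real.log ((N₀ : ℝ) + 1) ≤ 1 := by
              rw [div_le_one (by linarith)]
              linarith
            linarith
        _ = _ := by ring
    have g1 := hend M hM
    have g2 := hend N₀ le_rfl
    have hX : 0 < K₁ / L ^ B := by positivity
    have e1 : 3 / 2 * K₁ / L ^ B = 3 / 2 * (K₁ / L ^ B) := by ring
    have e2 : 3 * K₁ / L ^ B = 3 * (K₁ / L ^ B) := by ring
    have e3 : 12 * K₁ / L ^ B = 12 * (K₁ / L ^ B) := by ring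
    rw [e1] at g1 g2
    rw [e2] at hmid
    rw [e3]
    rw [abs_le] at g1 g2 hmid ⊢
    constructor
    · linarith [g1.1, g2.2, hmid.1]
    · linarith [g1.2, g2.1, hmid.2]
  -- the difference
  have hdiff : |∑ n ∈ Ioc N₀ M, ((if (n : ℤ) ∈ S a then ee d n else 0) - sw (S a) d n / n)|
      ≤ 3 * |(d : ℝ)| * B.factorial / L ^ B := by
    refine (abs_sum_le_sum_abs _ _).trans ?_
    calc ∑ n ∈ Ioc N₀ M, |(if (n : ℤ) ∈ S a then ee d n else 0) - sw (S a) d n / n|
        ≤ ∑ n ∈ Ioc N₀ M, (3 * |(d : ℝ)|) * (1 / ((n : ℝ) * ((n : ℝ) + 1))) := by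
          apply sum_le_sum
          intro n hn
          rw [mem_Ioc] at hn
          have hnR : (N₀ : ℝ) ≤ n := by exact_mod_cast hn.1.le
          have hn1 : (1 : ℝ) ≤ n := by
            have : (3 : ℝ) ≤ N₀ := by exact_mod_cast hN3
            linarith
          have hn0 : (0 : ℝ) < (n : ℝ) := by linarith
          unfold sw ee
          push_cast
          by_cases hS' : (n : ℤ) ∈ S a
          · rw [if_pos hS', if_pos hS']
            by_cases h3 : (3 : ℤ) ∣ 2 * (n : ℤ) - d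
            · rw [if_pos h3, if_pos h3]
              have hdn : (d : ℝ) ≤ n := (le_abs_self _).trans (by linarith)
              have hdpos : (n : ℝ) ≤ 2 * (n : ℝ) - d := by linarith
              have hdp : 0 < 2 * (n : ℝ) - d := by linarith
              have e1 : -1 / (2 * (n : ℝ)) + 3 / (2 * (n : ℝ) - d) - (-1 / 2 + 3 / 2) / n
                  = (3 * d) / (2 * n * (2 * (n : ℝ) - d)) := by
                field_simp
                ring
              rw [e1, abs_div, abs_mul, abs_of_pos (by positivity : (0 : ℝ) < 2 * n * (2 * (n : ℝ) - d)),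
                abs_of_pos (by norm_num : (0 : ℝ) < 3), div_eq_mul_one_div]
              apply mul_le_mul_of_nonneg_left _ (by positivity)
              apply one_div_le_one_div_of_le (by positivity)
              nlinarith
            · rw [if_neg h3, if_neg h3]
              have e1 : -1 / (2 * (n : ℝ)) + 0 - (-1 / 2 + 0) / n = 0 := by
                field_simp
                ring
              rw [e1, abs_zero]
              positivity
          · rw [if_neg hS', if_neg hS']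
            simp only [zero_div, sub_zero, abs_zero]
            positivity
      _ = (3 * |(d : ℝ)|) * ∑ n ∈ Ioc N₀ M, (1 / ((n : ℝ) * ((n : ℝ) + 1))) := by rw [mul_sum]
      _ ≤ (3 * |(d : ℝ)|) * (B.factorial / L ^ B) := by
          apply mul_le_mul_of_nonneg_left _ (by positivity)
          refine (tele_sq N₀ M hM).trans ?_
          have h3 : 0 < 1 / ((M : ℝ) + 1) := by positivity
          have h4 : 1 / ((N₀ : ℝ) + 1) ≤ 1 / (N₀ : ℝ) := one_div_le_one_div_of_le hN0 (by linarith)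
          have h5 : 1 / (N₀ : ℝ) = Real.exp (-(L / 1)) := by
            rw [div_one, Real.exp_neg, Real.exp_log hN0, one_div]
          have h6 := exp_neg_le B one_pos hlpos
          rw [one_pow, mul_one] at h6
          linarith
      _ = _ := by ring
  have e : ∑ n ∈ Ioc N₀ M, (if (n : ℤ) ∈ S a then ee d n else 0)
      = ∑ n ∈ Ioc N₀ M, sw (S a) d n / n
        + ∑ n ∈ Ioc N₀ M, ((if (n : ℤ) ∈ S a then ee d n else 0) - sw (S a) d n / n) := by
    rw [← sum_add_distrib]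
    apply sum_congr rfl
    intro n _
    ring
  rw [e]
  refine (abs_add_le _ _).trans ?_
  have : K / L ^ B = 12 * K₁ / L ^ B + 3 * |(d : ℝ)| * B.factorial / L ^ B := by rw [hK]; ring
  rw [this]
  linarith

end Pool.Agent.H9PD
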