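import Pool.Agent.H9PD.E3

/-! Law of predecessor densities, part E4: levels of the predecessor tree; the sums of the reciprocals
of the integers of a level; telescoping over the times. -/

set_option autoImplicit false

namespace Pool.Agent.H9PD

open Finset Filter Topology
open Pool.Agent.H499R2.ND (Td)

theorem Td_pos {d : ℤ} (hd : d = 1 ∨ d = -1) {n : ℤ} (hn : 1 ≤ n) : 1 ≤ Td d n := by
  unfold Td
  rcases hd with rfl | rfl <;> split_ifs <;> omega

theorem Td_le {d : ℤ} (hd : d = 1 ∨ d = -1) {n : ℤ} (hn : 1 ≤ n) : n ≤ 2 * Td d n := by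
  unfold Td
  rcases hd with rfl | rfl <;> split_ifs <;> omega

theorem iter_pos {d : ℤ} (hd : d = 1 ∨ d = -1) (k : ℕ) : ∀ {n : ℤ}, 1 ≤ n → 1 ≤ (Td d)^[k] n := by
  induction k with
  | zero => intro n hn; simpa using hn
  | succ k ih => intro n hn; rw [Function.iterate_succ_apply]; exact ih (Td_pos hd hn)

theorem iter_le {d : ℤ} (hd : d = 1 ∨ d = -1) (k : ℕ) : ∀ {n : ℤ}, 1 ≤ n → n ≤ 2 ^ k * (Td d)^[k] n := by
  induction k with
  | zero => intro n _; simp
  | succ k ih =>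
    intro n hn
    rw [Function.iterate_succ_apply]
    have h1 := ih (Td_pos hd hn)
    have h2 := Td_le hd hn
    rw [pow_succ]
    linarith

/-- the `k`-th level of the tree of the predecessors of `x` -/
noncomputable def Pre (d : ℤ) (k : ℕ) (x : ℤ) : Finset ℤ := (Icc 1 (2 ^ k * x)).filter fun n => (Td d)^[k] n = x

theorem mem_Pre {d : ℤ} (hd : d = 1 ∨ d = -1) {k : ℕ} {x n : ℤ} :
    n ∈ Pre d k x ↔ 1 ≤ n ∧ (Td d)^[k] n = x := by
  unfold Pre
  rw [mem_filter, mem_Icc]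
  constructor
  · rintro ⟨⟨h1, _⟩, h2⟩; exact ⟨h1, h2⟩
  · rintro ⟨h1, h2⟩
    refine ⟨⟨h1, ?_⟩, h2⟩
    have := iter_le hd k h1
    rwa [h2] at this

/-- the sum of the reciprocals of the `k`-th level -/
noncomputable def mm (d : ℤ) (k : ℕ) (x : ℤ) : ℝ := ∑ n ∈ Pre d k x, 1 / (n : ℝ)

theorem mm_nonneg {d : ℤ} (k : ℕ) (x : ℤ) : 0 ≤ mm d k x := by
  apply sum_nonneg
  intro n hn
  unfold Pre at hn
  rw [mem_filter, mem_Icc] at hn
  have : (1 : ℝ) ≤ n := by exact_mod_cast hn.1.1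
  positivity

theorem mm_zero {d : ℤ} (hd : d = 1 ∨ d = -1) {x : ℤ} (hx : 1 ≤ x) : mm d 0 x = 1 / (x : ℝ) := by
  have : Pre d 0 x = {x} := by
    ext n
    rw [mem_Pre hd, mem_singleton, Function.iterate_zero, id]
    constructor
    · exact fun h => h.2
    · rintro rfl; exact ⟨hx, rfl⟩
  unfold mm
  rw [this, sum_singleton]

theorem Td_two (d x : ℤ) : Td d (2 * x) = x := by unfold Td; rw [if_pos (by omega)]; omega

theorem Td_odd_eq {d : ℤ} (hd : d = 1 ∨ d = -1) {z n : ℤ} (h : 3 * z = 2 * n - d) : Td d z = n := by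
  unfold Td
  rcases hd with rfl | rfl
  · rw [if_neg (by omega)]; omega
  · rw [if_neg (by omega)]; omega

/-- one more step, at the leaves -/
theorem mm_leaf {d : ℤ} (hd : d = 1 ∨ d = -1) (k : ℕ) (x : ℤ) :
    mm d (k + 1) x - mm d k x = ∑ n ∈ Pre d k x, ee d n := by
  classical
  have hset : Pre d (k + 1) x = (Pre d k x).image (fun n => 2 * n) ∪
      ((Pre d k x).filter fun n => (3 : ℤ) ∣ 2 * n - d).image (fun n => (2 * n - d) / 3) := by
    ext z
    rw [mem_Pre hd, mem_union, mem_image, mem_image]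
    constructor
    · rintro ⟨h1, h2⟩
      rw [Function.iterate_succ_apply] at h2
      have h3 := Td_pos hd h1
      rcases Int.even_or_odd z with ⟨s, hs⟩ | ⟨s, hs⟩
      · left
        refine ⟨s, ?_, by omega⟩
        have e : Td d z = s := by rw [show z = 2 * s by omega, Td_two]
        rw [e] at h2 h3
        exact (mem_Pre hd).2 ⟨h3, h2⟩
      · right
        have e : 3 * z = 2 * Td d z - d := by
          unfold Td
          rcases hd with rfl | rfl
          · rw [if_neg (by omega)]; omega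
          · rw [if_neg (by omega)]; omega
        refine ⟨Td d z, ?_, by omega⟩
        rw [mem_filter]
        exact ⟨(mem_Pre hd).2 ⟨h3, h2⟩, ⟨z, by omega⟩⟩
    · rintro (⟨n, h1, rfl⟩ | ⟨n, h1, rfl⟩)
      · rw [mem_Pre hd] at h1
        refine ⟨by omega, ?_⟩
        rw [Function.iterate_succ_apply, Td_two]
        exact h1.2
      · rw [mem_filter, mem_Pre hd] at h1
        obtain ⟨⟨g1, g2⟩, z, hz⟩ := h1
        have e : (2 * n - d) / 3 = z := by omega
        rw [e]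
        refine ⟨by rcases hd with rfl | rfl <;> omega, ?_⟩
        rw [Function.iterate_succ_apply, Td_odd_eq hd (n := n) (by omega)]
        exact g2
  have hdisj : Disjoint ((Pre d k x).image (fun n => 2 * n))
      (((Pre d k x).filter fun n => (3 : ℤ) ∣ 2 * n - d).image (fun n => (2 * n - d) / 3)) := by
    rw [Finset.disjoint_left]
    intro z hz hz'
    rw [mem_image] at hz hz'
    obtain ⟨n, _, rfl⟩ := hz
    obtain ⟨n', h1, h2⟩ := hz'
    rw [mem_filter] at h1
    obtain ⟨_, w, hw⟩ := h1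
    rcases hd with rfl | rfl <;> omega
  unfold mm
  rw [hset, sum_union hdisj, sum_image (fun a _ b _ h => by simpa using h), sum_image, sum_filter,
    ← sum_add_distrib, ← sum_sub_distrib]
  · apply sum_congr rfl
    intro n hn
    rw [mem_Pre hd] at hn
    have hn1 : (1 : ℝ) ≤ n := by exact_mod_cast hn.1
    have hn0 : (0 : ℝ) < n := by linarith
    unfold ee
    by_cases h : (3 : ℤ) ∣ 2 * n - d
    · rw [if_pos h, if_pos h]
      obtain ⟨z, hz⟩ := h
      have e : (2 * n - d) / 3 = z := by omega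
      rw [e]
      have hz' : 2 * (n : ℝ) - d = 3 * z := by exact_mod_cast hz
      rw [hz']
      have hz1 : (1 : ℤ) ≤ z := by rcases hd with rfl | rfl <;> omega
      have hz0 : (0 : ℝ) < z := by
        have : (1 : ℝ) ≤ z := by exact_mod_cast hz1
        linarith
      push_cast
      field_simp
      ring
    · rw [if_neg h, if_neg h]
      push_cast
      field_simp
      ring
  · intro a ha b hb hab
    simp only [coe_filter, Set.mem_ofPred_eq] at ha hb
    obtain ⟨_, w, hw⟩ := ha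
    obtain ⟨_, w', hw'⟩ := hb
    simp only at hab
    omega

/-- one more step, at the root -/
theorem mm_root {d : ℤ} (hd : d = 1 ∨ d = -1) (k : ℕ) (x : ℤ) :
    mm d (k + 1) x = mm d k (2 * x) + if (3 : ℤ) ∣ 2 * x - d then mm d k ((2 * x - d) / 3) else 0 := by
  classical
  have hiff : ∀ w : ℤ, Td d w = x ↔ w = 2 * x ∨ 3 * w = 2 * x - d := by
    intro w
    unfold Td
    rcases hd with rfl | rfl <;> split_ifs <;> omega
  unfold mm
  by_cases h : (3 : ℤ) ∣ 2 * x - d
  · rw [if_pos h, ← sum_union]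
    · apply sum_congr _ fun _ _ => rfl
      ext n
      rw [mem_union, mem_Pre hd, mem_Pre hd, mem_Pre hd, Function.iterate_succ_apply', hiff]
      have : 3 * (Td d)^[k] n = 2 * x - d ↔ (Td d)^[k] n = (2 * x - d) / 3 := by omega
      rw [this]
      tauto
    · rw [Finset.disjoint_left]
      intro n h1 h2
      rw [mem_Pre hd] at h1 h2
      have e := h1.2.symm.trans h2.2
      rcases hd with rfl | rfl <;> omega
  · rw [if_neg h, add_zero]
    apply sum_congr _ fun _ _ => rfl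
    ext n
    rw [mem_Pre hd, mem_Pre hd, Function.iterate_succ_apply', hiff]
    have : ¬ 3 * (Td d)^[k] n = 2 * x - d := fun h' => h ⟨_, h'.symm⟩
    tauto

theorem mm_tele {d : ℤ} (hd : d = 1 ∨ d = -1) (x : ℤ) {K k : ℕ} (h : K ≤ k) :
    mm d k x - mm d K x = ∑ i ∈ Ico K k, ∑ n ∈ Pre d i x, ee d n := by
  induction k, h using Nat.le_induction with
  | base => simp
  | succ k hk ih =>
    rw [sum_Ico_succ_top hk, ← ih, ← mm_leaf hd]
    ring

theorem Pre_eq {d : ℤ} (hd : d = 1 ∨ d = -1) {i : ℕ} {x M : ℤ} (h : 2 ^ i * x ≤ M) :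
    Pre d i x = (Icc 1 M).filter fun n => (Td d)^[i] n = x := by
  ext n
  rw [mem_Pre hd, mem_filter, mem_Icc]
  constructor
  · rintro ⟨h1, h2⟩
    have := iter_le hd i h1
    rw [h2] at this
    exact ⟨⟨h1, by linarith⟩, h2⟩
  · rintro ⟨⟨h1, _⟩, h2⟩
    exact ⟨h1, h2⟩

/-- interchange of summations -/
theorem tau_sum {d : ℤ} (hd : d = 1 ∨ d = -1) (τ : ℤ → ℤ) (G : Finset ℤ) (hG : ∀ x, τ x ≠ 0 → x ∈ G)
    {K k : ℕ} (h : K ≤ k) {M : ℤ} (hM : ∀ x ∈ G, 2 ^ k * x ≤ M) (hpos : ∀ x ∈ G, 0 ≤ x) :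
    ∑ x ∈ G, (τ x : ℝ) * (mm d k x - mm d K x)
      = ∑ n ∈ Icc 1 M, ee d n * ((∑ i ∈ Ico K k, τ ((Td d)^[i] n) : ℤ) : ℝ) := by
  classical
  have h1 : ∀ x ∈ G, (τ x : ℝ) * (mm d k x - mm d K x)
      = ∑ n ∈ Icc 1 M, ∑ i ∈ Ico K k, ee d n * (if (Td d)^[i] n = x then (τ x : ℝ) else 0) := by
    intro x hx
    rw [mm_tele hd x h, mul_sum, sum_comm]
    apply sum_congr rfl
    intro i hi
    rw [mem_Ico] at hi
    have hle : 2 ^ i * x ≤ M := by
      refine le_trans ?_ (hM x hx)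
      apply mul_le_mul_of_nonneg_right _ (hpos x hx)
      exact pow_le_pow_right₀ (by norm_num) hi.2.le
    rw [Pre_eq hd hle, sum_filter, mul_sum]
    apply sum_congr rfl
    intro n _
    split_ifs
    · ring
    · ring
  rw [sum_congr rfl h1, sum_comm]
  apply sum_congr rfl
  intro n _
  rw [sum_comm, Int.cast_sum, mul_sum]
  apply sum_congr rfl
  intro i _
  rw [← mul_sum]
  congr 1
  rw [sum_ite_eq]
  split_ifs with h2
  · rfl
  · have : τ ((Td d)^[i] n) = 0 := by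
      by_contra h3
      exact h2 (hG _ h3)
    rw [this, Int.cast_zero]

/-! ### the graded family of the visits -/

/-- the signed number of the visits between the times `K` and `k` -/
noncomputable def ga (d : ℤ) (τ : ℤ → ℤ) (K k : ℕ) (a x : ℤ) : ℤ :=
  ∑ i ∈ Ico K k, if a ≤ (i : ℤ) then τ ((Td d)^[((i : ℤ) - a).toNat] x) else 0

theorem ga_zero (d : ℤ) (τ : ℤ → ℤ) (K k : ℕ) (x : ℤ) :
    ga d τ K k 0 x = ∑ i ∈ Ico K k, τ ((Td d)^[i] x) := by
  unfold ga
  apply sum_congr rfl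
  intro i _
  rw [if_pos (by positivity)]
  simp

theorem ga_step {d : ℤ} {τ : ℤ → ℤ} {K k : ℕ} (a : ℤ) {x : ℤ} (hx : τ x = 0) :
    ga d τ K k a x = ga d τ K k (a + 1) (Td d x) := by
  unfold ga
  apply sum_congr rfl
  intro i _
  by_cases h : a + 1 ≤ (i : ℤ)
  · rw [if_pos (by omega), if_pos h]
    have : ((i : ℤ) - a).toNat = ((i : ℤ) - (a + 1)).toNat + 1 := by omega
    rw [this, Function.iterate_succ_apply]
  · rw [if_neg h]
    by_cases h' : a ≤ (i : ℤ)
    · have : ((i : ℤ) - a).toNat = 0 := by omega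
      rw [if_pos h', this, Function.iterate_zero, id, hx]
    · rw [if_neg h']

theorem GT_ge {d : ℤ} {τ : ℤ → ℤ} {K k : ℕ} {y : ℝ} (hτ : ∀ x : ℤ, y < (x : ℝ) → τ x = 0) (j : ℤ) :
    GT y d (fun a => {x | j ≤ ga d τ K k a x}) := by
  intro a x hx
  simp only [Set.mem_ofPred_eq]
  rw [ga_step a (hτ x hx)]

theorem GT_le {d : ℤ} {τ : ℤ → ℤ} {K k : ℕ} {y : ℝ} (hτ : ∀ x : ℤ, y < (x : ℝ) → τ x = 0) (j : ℤ) :
    GT y d (fun a => {x | ga d τ K k a x ≤ j}) := by
  intro a x hx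
  simp only [Set.mem_ofPred_eq]
  rw [ga_step a (hτ x hx)]

theorem layer_nat {m L : ℕ} (h : m ≤ L) : ∑ j ∈ Icc 1 L, (if (j : ℤ) ≤ (m : ℤ) then (1 : ℝ) else 0) = m := by
  rw [← sum_filter, sum_const, nsmul_eq_mul, mul_one]
  have : (Icc 1 L).filter (fun j : ℕ => (j : ℤ) ≤ (m : ℤ)) = Icc 1 m := by
    ext j
    rw [mem_filter, mem_Icc, mem_Icc]
    omega
  rw [this, Nat.card_Icc]
  simp

theorem layer_cake {v : ℤ} {L : ℕ} (h : |v| ≤ L) : (v : ℝ) =
    ∑ j ∈ Icc 1 L, ((if (j : ℤ) ≤ v then (1 : ℝ) else 0) - (if v ≤ -(j : ℤ) then (1 : ℝ) else 0)) := by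
  rw [sum_sub_distrib]
  rcases le_or_gt 0 v with h0 | h0
  · obtain ⟨m, rfl⟩ := Int.eq_ofNat_of_zero_le h0
    rw [abs_of_nonneg h0] at h
    rw [layer_nat (by exact_mod_cast h)]
    have : ∑ j ∈ Icc 1 L, (if ((m : ℕ) : ℤ) ≤ -(j : ℤ) then (1 : ℝ) else 0) = 0 := by
      apply sum_eq_zero
      intro j hj
      rw [mem_Icc] at hj
      rw [if_neg (by omega)]
    rw [this]
    simp
  · obtain ⟨m, hm⟩ := Int.eq_ofNat_of_zero_le (by omega : 0 ≤ -v)
    have hv : v = -(m : ℤ) := by omega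
    subst hv
    rw [abs_of_neg h0] at h
    have h1 : ∑ j ∈ Icc 1 L, (if -(m : ℤ) ≤ -(j : ℤ) then (1 : ℝ) else 0) = m := by
      rw [← layer_nat (m := m) (L := L) (by omega)]
      apply sum_congr rfl
      intro j _
      by_cases h2 : (j : ℤ) ≤ m
      · rw [if_pos h2, if_pos (by omega)]
      · rw [if_neg h2, if_neg (by omega)]
    have h2 : ∑ j ∈ Icc 1 L, (if (j : ℤ) ≤ -(m : ℤ) then (1 : ℝ) else 0) = 0 := by
      apply sum_eq_zero
      intro j hj
      rw [mem_Icc] at hj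
      rw [if_neg (by omega)]
    rw [h1, h2]
    push_cast
    ring

end Pool.Agent.H9PD
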