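import Pool.Agent.H9PD.E4

/-! Law of predecessor densities, part E5: the levels of good integers, times `≥ c log y`. -/

set_option autoImplicit false

namespace Pool.Agent.H9PD

open Finset Filter Topology
open Pool.Agent.H499R2.ND (Td exp_neg_le)

theorem ee_abs {d : ℤ} (hd : d = 1 ∨ d = -1) {n : ℕ} (hn : 1 ≤ n) : |ee d n| ≤ 4 / n := by
  have hn1 : (1 : ℝ) ≤ n := by exact_mod_cast hn
  have hn0 : (0 : ℝ) < n := by linarith
  have hdn : (n : ℝ) ≤ 2 * (n : ℝ) - d := by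
    rcases hd with rfl | rfl <;> push_cast <;> linarith
  have h1 : 3 / (2 * (n : ℝ) - d) ≤ 3 / n := div_le_div_of_nonneg_left (by norm_num) hn0 hdn
  have h2 : 0 ≤ 3 / (2 * (n : ℝ) - d) := div_nonneg (by norm_num) (by linarith)
  have h3 : -1 / (2 * (n : ℝ)) = -(1 / 2 * (1 / n)) := by field_simp
  have h4 : 0 < 1 / (n : ℝ) := by positivity
  have h5 : 3 / (n : ℝ) = 3 * (1 / n) := by ring
  have h6 : 4 / (n : ℝ) = 4 * (1 / n) := by ring
  unfold ee
  push_cast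
  rw [abs_le, h6, h3]
  rw [h5] at h1
  split_ifs
  · constructor <;> linarith
  · constructor <;> linarith

theorem harm_log (N : ℕ) : ∑ n ∈ Ioc 0 N, 1 / ((n : ℝ) + 1) ≤ Real.log ((N : ℝ) + 1) := by
  induction N with
  | zero => simp
  | succ N ih =>
    rw [sum_Ioc_succ_top (Nat.zero_le N)]
    have h1 : Real.log (((N : ℝ) + 1) / ((N : ℝ) + 1 + 1)) ≤ ((N : ℝ) + 1) / ((N : ℝ) + 1 + 1) - 1 :=
      Real.log_le_sub_one_of_pos (by positivity)
    rw [Real.log_div (by positivity) (by positivity)] at h1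
    have h2 : ((N : ℝ) + 1) / ((N : ℝ) + 1 + 1) - 1 = -(1 / ((N : ℝ) + 1 + 1)) := by
      field_simp
      ring
    push_cast
    linarith

/-- harmonic sum over a sparse set -/
theorem sparse_harm (w : ℕ → ℝ) (θ : ℝ) (hθ : 0 ≤ θ) (N : ℕ)
    (h : ∀ n, 1 ≤ n → n ≤ N → ∑ j ∈ Icc 1 n, w j ≤ θ * n) :
    ∑ n ∈ Icc 1 N, w n / n ≤ θ * (1 + Real.log ((N : ℝ) + 1)) := by
  have h1 := abel w 0 N (Nat.zero_le N)
  have e : Ioc 0 N = Icc 1 N := by ext x; rw [mem_Ioc, mem_Icc]; omega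
  rw [← e, h1]
  have h2 : (∑ n ∈ Icc 1 N, w n) / ((N : ℝ) + 1) ≤ θ := by
    rcases Nat.eq_zero_or_pos N with rfl | hN
    · simpa using hθ
    · rw [div_le_iff₀ (by positivity)]
      have := h N hN le_rfl
      nlinarith
  have h3 : ∑ n ∈ Ioc 0 N, (∑ j ∈ Icc 1 n, w j) / ((n : ℝ) * ((n : ℝ) + 1)) ≤ θ * Real.log ((N : ℝ) + 1) := by
    calc ∑ n ∈ Ioc 0 N, (∑ j ∈ Icc 1 n, w j) / ((n : ℝ) * ((n : ℝ) + 1))
        ≤ ∑ n ∈ Ioc 0 N, θ * (1 / ((n : ℝ) + 1)) := by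
          apply sum_le_sum
          intro n hn
          rw [mem_Ioc] at hn
          have hn1 : (1 : ℝ) ≤ n := by exact_mod_cast hn.1
          have h4 := h n hn.1 hn.2
          rw [div_le_iff₀ (by positivity)]
          calc _ ≤ θ * n := h4
            _ = _ := by field_simp
      _ = θ * ∑ n ∈ Ioc 0 N, 1 / ((n : ℝ) + 1) := by rw [mul_sum]
      _ ≤ _ := mul_le_mul_of_nonneg_left (harm_log N) hθ
  simp only [Nat.cast_zero, zero_add] at h1 ⊢
  have h4 : (∑ n ∈ Icc 1 0, w n) / 1 = 0 := by simp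
  rw [h4]
  linarith

open Classical in
/-- THE STEP ESTIMATE -/
theorem visit_bound (B : ℕ) {d : ℤ} (hd : d = 1 ∨ d = -1) {c C₁ K₁ : ℝ} (hc : 0 < c) (hc1 : c ≤ 1 / 10)
    (hC₁ : 0 < C₁) (hK₁ : 0 < K₁) :
    ∃ K₀ y₀ : ℝ, 0 < K₀ ∧ 1 ≤ y₀ ∧ ∀ y : ℝ, y₀ ≤ y → ∀ (τ : ℤ → ℤ) (G : Finset ℤ),
      (∀ x, τ x ≠ 0 → x ∈ G) → (∀ x ∈ G, 0 ≤ x ∧ (x : ℝ) ≤ 2 * y) →
      ∀ K k : ℕ, K ≤ k → ∀ L : ℕ, (L : ℝ) ≤ C₁ * Real.log y →
      (∀ n : ℕ, 1 ≤ n → |∑ i ∈ Ico K k, τ ((Td d)^[i] n)| ≤ L) →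
      (∀ N : ℕ, (N : ℝ) ≤ y ^ (1 + c / 40) →
        (((Icc 1 N).filter fun n : ℕ => ∑ i ∈ Ico K k, τ ((Td d)^[i] n) ≠ 0).card : ℝ)
          ≤ K₁ * N / Real.log y ^ (B + 2)) →
      ∑ x ∈ G, (τ x : ℝ) * (mm d k x - mm d K x) ≤ K₀ / Real.log y ^ B := by
  have hdo : Odd d := by rcases hd with rfl | rfl <;> decide
  have hd3 : IsCoprime d 3 := by
    rcases hd with rfl | rfl
    · exact isCoprime_one_left
    · exact isCoprime_one_left.neg_left
  have hd1 : |(d : ℝ)| = 1 := by rcases hd with rfl | rfl <;> simp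
  obtain ⟨K₂, t₀, hK₂, ht₀, hes⟩ := esum (B + 1) hdo hd3 (η := c / 160) (by positivity) (by linarith)
  have hl2 := Real.log_two_gt_d9
  have hl2' := Real.log_two_lt_d9
  set K₀ : ℝ := 32 * C₁ * K₁ + 2 * C₁ * K₂ with hK₀
  refine ⟨K₀, Real.exp (t₀ + 1 + 480 / c), by positivity, ?_, ?_⟩
  · apply Real.one_le_exp
    have : 0 < 480 / c := by positivity
    linarith
  intro y hy τ G hτG hG K k hKk L hL hvis hfew
  have h480 : 0 < 480 / c := by positivity
  have hypos : 0 < y := (Real.exp_pos _).trans_le hy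
  set l := Real.log y with hl
  have hlt : t₀ + 1 + 480 / c ≤ l := by rw [hl, Real.le_log_iff_exp_le hypos]; exact hy
  have hl1 : 8 ≤ l := by linarith
  have hlpos : 0 < l := by linarith
  have hcl : 480 ≤ c * l := by
    have : 480 / c ≤ l := by linarith
    rw [div_le_iff₀ hc] at this
    linarith
  have hy1 : 1 ≤ y := ((Real.log_pos_iff hypos.le).1 hlpos).le
  set U : ℝ := y ^ (1 + c / 40) with hU
  have hUexp : U = Real.exp ((1 + c / 40) * l) := by rw [hU, Real.rpow_def_of_pos hypos, mul_comm]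
  have hU1 : 2 ≤ U := by
    have h1 := Real.add_one_le_exp ((1 + c / 40) * l)
    rw [← hUexp] at h1
    nlinarith
  have hUpos : 0 < U := by linarith
  set N₀ : ℕ := ⌊U⌋₊ with hN₀
  have hN1 : (N₀ : ℝ) ≤ U := Nat.floor_le hUpos.le
  have hN2 : U / 2 ≤ N₀ := by
    have := Nat.lt_floor_add_one U
    rw [← hN₀] at this
    linarith
  have hN0pos : (0 : ℝ) < N₀ := by linarith
  have hlogU : Real.log U = (1 + c / 40) * l := by rw [hUexp, Real.log_exp]
  have hlogN : (1 + c / 40) * l - Real.log 2 ≤ Real.log N₀ := by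
    rw [← hlogU, ← Real.log_div hUpos.ne' (by norm_num)]
    exact Real.log_le_log (by positivity) hN2
  have hlogN' : l ≤ Real.log N₀ := by
    have : c / 40 * l = (c * l) / 40 := by ring
    nlinarith
  have hlogN'' : Real.log N₀ ≤ 2 * l := by
    have h1 : Real.log N₀ ≤ Real.log U := Real.log_le_log hN0pos hN1
    rw [hlogU] at h1
    nlinarith
  -- notation
  set g : ℕ → ℤ := fun n => ∑ i ∈ Ico K k, τ ((Td d)^[i] n) with hg
  -- the upper limit
  obtain ⟨M, hM1, hM2⟩ : ∃ M : ℕ, N₀ ≤ M ∧ ∀ x ∈ G, 2 ^ k * x ≤ (M : ℤ) := by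
    refine ⟨N₀ + ∑ x ∈ G, (2 ^ k * x).toNat, by omega, ?_⟩
    intro x hx
    have h1 : (2 ^ k * x).toNat ≤ ∑ x ∈ G, (2 ^ k * x).toNat :=
      single_le_sum (f := fun x : ℤ => (2 ^ k * x).toNat) (fun _ _ => Nat.zero_le _) hx
    omega
  rw [tau_sum hd τ G hτG hKk hM2 (fun x hx => (hG x hx).1)]
  -- from integers to natural numbers
  have e1 : ∑ n ∈ Icc (1 : ℤ) M, ee d n * ((∑ i ∈ Ico K k, τ ((Td d)^[i] n) : ℤ) : ℝ)
      = ∑ n ∈ Icc 1 M, ee d n * (g n : ℝ) := by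
    symm
    apply sum_bij (fun (n : ℕ) _ => (n : ℤ))
    · intro n hn
      rw [mem_Icc] at hn ⊢
      omega
    · intro a _ b _ hab
      exact_mod_cast hab
    · intro z hz
      rw [mem_Icc] at hz
      exact ⟨z.toNat, by rw [mem_Icc]; omega, by omega⟩
    · intro n _
      rfl
  rw [e1]
  have e2 : Icc 1 M = Icc 1 N₀ ∪ Ioc N₀ M := by
    ext n
    rw [mem_union, mem_Icc, mem_Icc, mem_Ioc]
    omega
  have e3 : Disjoint (Icc 1 N₀) (Ioc N₀ M) := by
    rw [Finset.disjoint_left]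
    intro n h1 h2
    rw [mem_Icc] at h1
    rw [mem_Ioc] at h2
    omega
  rw [e2, sum_union e3]
  -- small part
  have hsmall : ∑ n ∈ Icc 1 N₀, ee d n * (g n : ℝ) ≤ 32 * C₁ * K₁ / l ^ B := by
    set w : ℕ → ℝ := fun n => if g n ≠ 0 then 1 else 0 with hw
    set θ : ℝ := K₁ / l ^ (B + 2) with hθ
    have hθ0 : 0 ≤ θ := by positivity
    have h1 : ∑ n ∈ Icc 1 N₀, w n / n ≤ θ * (1 + Real.log ((N₀ : ℝ) + 1)) := by
      apply sparse_harm w θ hθ0
      intro n _ hn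
      have h2 := hfew n (by
        have : (n : ℝ) ≤ N₀ := by exact_mod_cast hn
        linarith)
      have h3 : ∑ j ∈ Icc 1 n, w j = ((Icc 1 n).filter fun n : ℕ => g n ≠ 0).card := by
        rw [hw]
        simp only
        rw [← sum_filter, sum_const, nsmul_eq_mul, mul_one]
      rw [h3]
      refine h2.trans (le_of_eq ?_)
      rw [hθ]; ring
    have h2 : Real.log ((N₀ : ℝ) + 1) ≤ 2 * l + 1 := by
      have h3 : Real.log ((N₀ : ℝ) + 1) ≤ Real.log (2 * N₀) := by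
        apply Real.log_le_log (by positivity)
        linarith
      rw [Real.log_mul (by norm_num) hN0pos.ne'] at h3
      linarith
    have h3 : ∑ n ∈ Icc 1 N₀, ee d n * (g n : ℝ) ≤ ∑ n ∈ Icc 1 N₀, (4 * (C₁ * l)) * (w n / n) := by
      apply sum_le_sum
      intro n hn
      rw [mem_Icc] at hn
      have hn0 : (0 : ℝ) < n := by exact_mod_cast hn.1
      have h4 := ee_abs hd hn.1
      have h5 := hvis n hn.1
      by_cases h6 : g n = 0
      · rw [h6, hw]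
        simp [h6]
      · have h7 : w n = 1 := by rw [hw]; simp only; rw [if_pos h6]
        rw [h7]
        have h8 : |(g n : ℝ)| ≤ C₁ * l := by
          have : |(g n : ℝ)| ≤ (L : ℝ) := by
            have h9 : |g n| ≤ (L : ℤ) := h5
            exact_mod_cast h9
          linarith
        calc ee d n * (g n : ℝ) ≤ |ee d n * (g n : ℝ)| := le_abs_self _
          _ = |ee d n| * |(g n : ℝ)| := abs_mul _ _
          _ ≤ (4 / n) * (C₁ * l) := mul_le_mul h4 h8 (abs_nonneg _) (by positivity)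
          _ = _ := by ring
    rw [← mul_sum] at h3
    have h4 : 4 * (C₁ * l) * ∑ n ∈ Icc 1 N₀, w n / n ≤ 4 * (C₁ * l) * (θ * (8 * l)) := by
      apply mul_le_mul_of_nonneg_left _ (by positivity)
      refine h1.trans ?_
      apply mul_le_mul_of_nonneg_left _ hθ0
      linarith
    have h5 : 4 * (C₁ * l) * (θ * (8 * l)) = 32 * C₁ * K₁ / l ^ B := by
      rw [hθ, pow_add]
      field_simp
      ring
    linarith
  -- large part
  have hlarge : ∑ n ∈ Ioc N₀ M, ee d n * (g n : ℝ) ≤ 2 * C₁ * K₂ / l ^ B := by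
    have h1 : ∀ n ∈ Ioc N₀ M, ee d n * (g n : ℝ) = ∑ j ∈ Icc 1 L,
        ((if (n : ℤ) ∈ {x | (j : ℤ) ≤ ga d τ K k 0 x} then ee d n else 0)
          - (if (n : ℤ) ∈ {x | ga d τ K k 0 x ≤ -(j : ℤ)} then ee d n else 0)) := by
      intro n hn
      rw [mem_Ioc] at hn
      have h2 := layer_cake (hvis n (by omega))
      have h3 : (g n : ℝ) = ((∑ i ∈ Ico K k, τ ((Td d)^[i] n) : ℤ) : ℝ) := rfl
      rw [h3, h2, mul_sum]
      apply sum_congr rfl
      intro j _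
      simp only [Set.mem_ofPred_eq, ga_zero]
      split_ifs <;> ring
    rw [sum_congr rfl h1, sum_comm]
    have hτy : ∀ x : ℤ, 2 * y < (x : ℝ) → τ x = 0 := by
      intro x hx
      by_contra h2
      have := (hG x (hτG x h2)).2
      linarith
    have hcond1 : t₀ ≤ Real.log N₀ := by linarith
    have hcond2 : (1 + 3 * (c / 160)) * Real.log (2 * y) ≤ Real.log N₀ := by
      rw [Real.log_mul (by norm_num) hypos.ne']
      refine le_trans ?_ hlogN
      nlinarith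
    have hbd : ∀ j ∈ Icc 1 L, ∑ n ∈ Ioc N₀ M,
        ((if (n : ℤ) ∈ {x | (j : ℤ) ≤ ga d τ K k 0 x} then ee d n else 0)
          - (if (n : ℤ) ∈ {x | ga d τ K k 0 x ≤ -(j : ℤ)} then ee d n else 0)) ≤ 2 * (K₂ / l ^ (B + 1)) := by
      intro j _
      rw [sum_sub_distrib]
      have h2 := hes (2 * y) (by rw [hd1]; linarith) (by linarith) _ (GT_ge (d := d) (K := K) (k := k) hτy (j : ℤ))
        N₀ M hcond1 hcond2 0
      have h3 := hes (2 * y) (by rw [hd1]; linarith) (by linarith) _ (GT_le (d := d) (K := K) (k := k) hτy (-(j : ℤ)))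
        N₀ M hcond1 hcond2 0
      have h4 : K₂ / Real.log N₀ ^ (B + 1) ≤ K₂ / l ^ (B + 1) := by
        apply div_le_div_of_nonneg_left hK₂.le (by positivity)
        exact pow_le_pow_left₀ hlpos.le hlogN' _
      rw [abs_le] at h2 h3
      have h5 : (∑ n ∈ Ioc N₀ M, if (n : ℤ) ∈ {x | (j : ℤ) ≤ ga d τ K k 0 x} then ee d n else 0)
          ≤ K₂ / Real.log N₀ ^ (B + 1) := by
        refine le_trans (le_of_eq (sum_congr rfl fun n _ => ?_)) h2.2
        beta_reduce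
        split_ifs <;> rfl
      have h6 : -(K₂ / Real.log N₀ ^ (B + 1))
          ≤ ∑ n ∈ Ioc N₀ M, if (n : ℤ) ∈ {x | ga d τ K k 0 x ≤ -(j : ℤ)} then ee d n else 0 := by
        refine le_trans h3.1 (le_of_eq (sum_congr rfl fun n _ => ?_))
        beta_reduce
        split_ifs <;> rfl
      linarith
    calc _ ≤ ∑ j ∈ Icc 1 L, 2 * (K₂ / l ^ (B + 1)) := sum_le_sum hbd
      _ = L * (2 * (K₂ / l ^ (B + 1))) := by rw [sum_const, Nat.card_Icc, nsmul_eq_mul]; simp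
      _ ≤ (C₁ * l) * (2 * (K₂ / l ^ (B + 1))) := mul_le_mul_of_nonneg_right hL (by positivity)
      _ = _ := by rw [pow_succ]; field_simp
  have h9 : K₀ / l ^ B = 32 * C₁ * K₁ / l ^ B + 2 * C₁ * K₂ / l ^ B := by rw [hK₀]; ring
  rw [h9]
  linarith

end Pool.Agent.H9PD
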