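import Pool.Agent.H9PD.E5

/-! Law of predecessor densities, part E6: good integers, the levels of their trees. -/

set_option autoImplicit false

namespace Pool.Agent.H9PD

open Finset Filter Topology
open Pool.Agent.H499R2.ND (Td exp_neg_le)

/-- the good integers of `(y, 2 y]`: the trajectory reaches `[1, y ^ (1/100)]` within `C log y` steps,
and `x` is not a term of the trajectory of a `p ≤ y ^ (1/100)` -/
def GoodZ (d : ℤ) (C y : ℝ) (x : ℤ) : Prop :=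
  y < x ∧ (x : ℝ) ≤ 2 * y ∧
    (∃ m : ℕ, (m : ℝ) ≤ C * Real.log y ∧ (((Td d)^[m] x : ℤ) : ℝ) ≤ y ^ (1 / 100 : ℝ)) ∧
    ∀ p : ℤ, 1 ≤ p → (p : ℝ) ≤ y ^ (1 / 100 : ℝ) → ∀ j : ℕ, (Td d)^[j] p ≠ x

/-- the integers of `(y, 2y]` -/
noncomputable def WF (y : ℝ) : Finset ℤ := Ioc ⌊y⌋ ⌊2 * y⌋

theorem mem_WF {y : ℝ} {x : ℤ} : x ∈ WF y ↔ y < x ∧ (x : ℝ) ≤ 2 * y := by
  unfold WF
  rw [mem_Ioc, Int.floor_lt, Int.le_floor]

open Classical in
/-- few integers are not good, and few integers meet a good one after many steps -/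
def StmWZ (d : ℤ) : Prop := ∃ C : ℝ, 0 < C ∧
  (∃ c₀ y₀ : ℝ, 0 < c₀ ∧ ∀ y : ℝ, y₀ ≤ y →
    (((WF y).filter fun x => ¬ GoodZ d C y x).card : ℝ) ≤ y ^ (1 - c₀)) ∧
  (∀ c : ℝ, 0 < c → c ≤ 1 / 10 → ∀ B : ℕ, ∃ K y₀ : ℝ, 0 < K ∧ ∀ y : ℝ, y₀ ≤ y → ∀ N : ℕ,
    (N : ℝ) ≤ y ^ (1 + c / 40) →
    (((Icc 1 N).filter fun n : ℕ => ∃ j : ℕ, c * Real.log y ≤ j ∧ GoodZ d C y ((Td d)^[j] n)).card : ℝ) ≤
      K * N / Real.log y ^ B)

/-- the number of the visits to good integers -/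
theorem visits {d : ℤ} (hd : d = 1 ∨ d = -1) {C y : ℝ} (τ : ℤ → ℤ) (hτ : ∀ x, |τ x| ≤ 1)
    (hG : ∀ x, τ x ≠ 0 → GoodZ d C y x) (K k : ℕ) (n : ℤ) (hn : 1 ≤ n) (L : ℕ)
    (hL : ∀ m : ℕ, (m : ℝ) ≤ C * Real.log y → m ≤ L) :
    |∑ i ∈ Ico K k, τ ((Td d)^[i] n)| ≤ (L : ℤ) := by
  classical
  have h1 : |∑ i ∈ Ico K k, τ ((Td d)^[i] n)| ≤
      (((Ico K k).filter fun i => GoodZ d C y ((Td d)^[i] n)).card : ℤ) := by
    refine (abs_sum_le_sum_abs _ _).trans ?_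
    rw [card_eq_sum_ones, Nat.cast_sum, sum_filter]
    apply sum_le_sum
    intro i _
    by_cases h : GoodZ d C y ((Td d)^[i] n)
    · rw [if_pos h]
      simpa using hτ _
    · rw [if_neg h]
      have : τ ((Td d)^[i] n) = 0 := by
        by_contra h2
        exact h (hG _ h2)
      rw [this]
      simp
  refine h1.trans ?_
  rcases ((Ico K k).filter fun i => GoodZ d C y ((Td d)^[i] n)).eq_empty_or_nonempty with h2 | h2
  · rw [h2]; simp
  set F := (Ico K k).filter fun i => GoodZ d C y ((Td d)^[i] n) with hF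
  set i₀ := F.min' h2 with hi₀
  have hmem : i₀ ∈ F := F.min'_mem h2
  have hgood : GoodZ d C y ((Td d)^[i₀] n) := by
    rw [hF, mem_filter] at hmem
    exact hmem.2
  obtain ⟨_, _, ⟨m, hm1, hm2⟩, _⟩ := hgood
  have hsub : F ⊆ Ico i₀ (i₀ + m) := by
    intro i hi
    have h3 : i₀ ≤ i := F.min'_le i hi
    rw [mem_Ico]
    refine ⟨h3, ?_⟩
    by_contra h4
    push Not at h4
    rw [hF, mem_filter] at hi
    obtain ⟨_, _, _, h5⟩ := hi.2
    refine h5 ((Td d)^[m] ((Td d)^[i₀] n)) (iter_pos hd m (iter_pos hd i₀ hn)) hm2 (i - (i₀ + m)) ?_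
    rw [← Function.iterate_add_apply, ← Function.iterate_add_apply]
    congr 1
    omega
  have h3 := card_le_card hsub
  rw [Nat.card_Ico] at h3
  have h4 := hL m hm1
  have h5 : F.card ≤ L := by omega
  exact_mod_cast h5

/-- a good integer is not periodic -/
theorem GoodZ.nonper {d : ℤ} (hd : d = 1 ∨ d = -1) {C y : ℝ} {x : ℤ} (hx1 : 1 ≤ x) (h : GoodZ d C y x) {q : ℕ}
    (hq : 1 ≤ q) : (Td d)^[q] x ≠ x := by
  intro hc
  obtain ⟨_, _, ⟨m, hm1, hm2⟩, h5⟩ := h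
  have h6 : ∀ t : ℕ, (Td d)^[q * t] x = x := by
    intro t
    induction t with
    | zero => simp
    | succ t ih => rw [Nat.mul_succ, Function.iterate_add_apply, hc, ih]
  have h7 : m ≤ q * m := Nat.le_mul_of_pos_left m hq
  refine h5 ((Td d)^[m] x) (iter_pos hd m hx1) hm2 (q * m - m) ?_
  rw [← Function.iterate_add_apply]
  have : q * m - m + m = q * m := by omega
  rw [this, h6]

open Classical in
/-- THE LEVELS OF GOOD INTEGERS -/
theorem good_sum {d : ℤ} (hd : d = 1 ∨ d = -1) {C : ℝ} (hC : 0 < C)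
    (hW : ∀ c : ℝ, 0 < c → c ≤ 1 / 10 → ∀ B : ℕ, ∃ K y₀ : ℝ, 0 < K ∧ ∀ y : ℝ, y₀ ≤ y → ∀ N : ℕ,
      (N : ℝ) ≤ y ^ (1 + c / 40) →
      (((Icc 1 N).filter fun n : ℕ => ∃ j : ℕ, c * Real.log y ≤ j ∧ GoodZ d C y ((Td d)^[j] n)).card : ℝ) ≤
        K * N / Real.log y ^ B) (B : ℕ) {c : ℝ} (hc : 0 < c) (hc1 : c ≤ 1 / 10) :
    ∃ K₀ y₀ : ℝ, 0 < K₀ ∧ 1 ≤ y₀ ∧ ∀ y : ℝ, y₀ ≤ y → ∀ K k : ℕ, c * Real.log y ≤ K → K ≤ k →
      ∑ x ∈ (WF y).filter (GoodZ d C y), |mm d k x - mm d K x| ≤ K₀ / Real.log y ^ B := by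
  obtain ⟨K₁, y₁, hK₁, hfew⟩ := hW c hc hc1 (B + 2)
  obtain ⟨K₀, y₀, hK₀, hy₀, hv⟩ := visit_bound B hd hc hc1 hC hK₁
  refine ⟨K₀, max y₀ y₁, hK₀, hy₀.trans (le_max_left _ _), ?_⟩
  intro y hy K k hK hKk
  have hy0 : y₀ ≤ y := (le_max_left _ _).trans hy
  have hy1 : y₁ ≤ y := (le_max_right _ _).trans hy
  have hypos : 0 < y := by linarith
  have hlog0 : 0 ≤ Real.log y := Real.log_nonneg (by linarith)
  set G := (WF y).filter (GoodZ d C y) with hGdef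
  set τ : ℤ → ℤ := fun x => if GoodZ d C y x then (if 0 ≤ mm d k x - mm d K x then 1 else -1) else 0 with hτ
  have hτ1 : ∀ x, |τ x| ≤ 1 := by
    intro x
    rw [hτ]
    simp only
    split_ifs <;> simp
  have hτG : ∀ x, τ x ≠ 0 → GoodZ d C y x := by
    intro x hx
    by_contra h
    apply hx
    rw [hτ]
    simp only
    rw [if_neg h]
  have hmemG : ∀ x, GoodZ d C y x → x ∈ G := by
    intro x hx
    rw [hGdef, mem_filter, mem_WF]
    exact ⟨⟨hx.1, hx.2.1⟩, hx⟩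
  have h1 := hv y hy0 τ G (fun x hx => hmemG x (hτG x hx)) (by
    intro x hx
    rw [hGdef, mem_filter, mem_WF] at hx
    refine ⟨?_, hx.1.2⟩
    have : (0 : ℝ) < x := by linarith [hx.1.1]
    have : (0 : ℤ) < x := by exact_mod_cast this
    omega) K k hKk ⌊C * Real.log y⌋₊ (Nat.floor_le (by positivity)) (by
      intro n hn
      exact visits hd τ hτ1 hτG K k n (by exact_mod_cast hn) _ (fun m hm => Nat.le_floor hm)) (by
      intro N hN
      refine le_trans ?_ (hfew y hy1 N hN)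
      have : ((Icc 1 N).filter fun n : ℕ => ∑ i ∈ Ico K k, τ ((Td d)^[i] n) ≠ 0) ⊆
          ((Icc 1 N).filter fun n : ℕ => ∃ j : ℕ, c * Real.log y ≤ j ∧ GoodZ d C y ((Td d)^[j] n)) := by
        intro n hn
        rw [mem_filter] at hn ⊢
        refine ⟨hn.1, ?_⟩
        obtain ⟨i, hi, h2⟩ := exists_ne_zero_of_sum_ne_zero hn.2
        rw [mem_Ico] at hi
        refine ⟨i, ?_, hτG _ h2⟩
        have : (K : ℝ) ≤ i := by exact_mod_cast hi.1
        linarith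
      exact_mod_cast card_le_card this)
  refine le_trans (le_of_eq ?_) h1
  apply sum_congr rfl
  intro x hx
  have hx' : GoodZ d C y x := by
    rw [hGdef, mem_filter] at hx
    exact hx.2
  rw [hτ]
  simp only
  rw [if_pos hx']
  split_ifs with h2
  · rw [abs_of_nonneg h2]; push_cast; ring
  · rw [abs_of_neg (by linarith)]; push_cast; ring

end Pool.Agent.H9PD
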